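import Mathlib

open MeasureTheory ProbabilityTheory
open scoped NNReal ENNReal

namespace Pool.Agent.Lib.MP_8cdf0c_pr

variable {Ω : Type*} {mΩ : MeasurableSpace Ω} {P : Measure Ω}

/-! ### Linear span of a Gaussian process -/

/-- Everything in the linear span of a Gaussian process is jointly Gaussian. -/
lemma isGaussianProcess_of_mem_span {S T : Type*} {W : T → Ω → ℝ} (hW : IsGaussianProcess W P)
    {Y : S → Ω → ℝ} (hY : ∀ s, Y s ∈ Submodule.span ℝ (Set.range W)) :
    IsGaussianProcess Y P := by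
  classical
  refine hW.of_isGaussianProcess fun s ↦ ?_
  obtain ⟨c, hc⟩ := Finsupp.mem_span_range_iff_exists_finsupp.1 (hY s)
  refine ⟨c.support,
    { toFun x := ∑ i : c.support, c i * x i
      map_add' x y := by simp [mul_add, Finset.sum_add_distrib]
      map_smul' m x := by simp [Finset.mul_sum, mul_left_comm]
      cont := by fun_prop }, fun ω ↦ ?_⟩
  rw [← hc, Finsupp.sum]
  simp only [Finset.sum_apply, Pi.smul_apply, smul_eq_mul]
  rw [← Finset.sum_coe_sort c.support (fun i ↦ c i * W i ω)]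
  rfl

/-- Independence of a family and a single variable in the span of a Gaussian process. -/
lemma indepFun_of_mem_span {S T : Type*} {W : T → Ω → ℝ} (hW : IsGaussianProcess W P)
    {Y : S → Ω → ℝ} {ξ : Ω → ℝ} (hY : ∀ s, Y s ∈ Submodule.span ℝ (Set.range W))
    (hξ : ξ ∈ Submodule.span ℝ (Set.range W)) (hcov : ∀ s, cov[Y s, ξ; P] = 0) :
    IndepFun (fun ω s ↦ Y s ω) ξ P := by
  have h1 : IsGaussianProcess (Sum.elim Y (fun (_ : Unit) ↦ ξ)) P := by
    refine isGaussianProcess_of_mem_span hW ?_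
    rintro (s | u)
    · exact hY s
    · exact hξ
  have h2 : ∀ s, AEMeasurable (Y s) P := fun s ↦ h1.aemeasurable (Sum.inl s)
  have h3 : ∀ u : Unit, AEMeasurable ((fun (_ : Unit) ↦ ξ) u) P :=
    fun u ↦ h1.aemeasurable (Sum.inr u)
  have h4 := h1.indepFun_of_covariance_eq_zero h2 h3 (fun s _ ↦ hcov s)
  have h5 : Measurable (fun x : Unit → ℝ ↦ x ()) := measurable_pi_apply ()
  exact h4.comp measurable_id h5

lemma aemeasurable_of_mem_span {T : Type*} {W : T → Ω → ℝ} (hW : IsGaussianProcess W P)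
    {ξ : Ω → ℝ} (hξ : ξ ∈ Submodule.span ℝ (Set.range W)) : AEMeasurable ξ P :=
  (isGaussianProcess_of_mem_span hW (Y := fun (_ : Unit) ↦ ξ) (fun _ ↦ hξ)).aemeasurable ()

lemma hasGaussianLaw_of_mem_span {T : Type*} {W : T → Ω → ℝ} (hW : IsGaussianProcess W P)
    {ξ : Ω → ℝ} (hξ : ξ ∈ Submodule.span ℝ (Set.range W)) : HasGaussianLaw ξ P :=
  (isGaussianProcess_of_mem_span hW (Y := fun (_ : Unit) ↦ ξ) (fun _ ↦ hξ)).hasGaussianLaw_eval ()

lemma integral_of_mem_span {T : Type*} {W : T → Ω → ℝ} (hW : IsGaussianProcess W P)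
    (hW0 : ∀ t, ∫ ω, W t ω ∂P = 0)
    {ξ : Ω → ℝ} (hξ : ξ ∈ Submodule.span ℝ (Set.range W)) : ∫ ω, ξ ω ∂P = 0 := by
  obtain ⟨c, hc⟩ := Finsupp.mem_span_range_iff_exists_finsupp.1 hξ
  rw [← hc, Finsupp.sum]
  simp only [Finset.sum_apply, Pi.smul_apply, smul_eq_mul]
  rw [integral_finsetSum]
  · simp [integral_const_mul, hW0]
  · intro i _
    exact (hW.hasGaussianLaw_eval i).integrable.const_mul _

lemma map_of_mem_span {T : Type*} {W : T → Ω → ℝ} (hW : IsGaussianProcess W P)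
    (hW0 : ∀ t, ∫ ω, W t ω ∂P = 0)
    {ξ : Ω → ℝ} (hξ : ξ ∈ Submodule.span ℝ (Set.range W)) {v : ℝ} (hv : cov[ξ, ξ; P] = v) :
    P.map ξ = gaussianReal 0 v.toNNReal := by
  have h1 := hasGaussianLaw_of_mem_span hW hξ
  have h2 := IsGaussian.eq_gaussianReal _ h1.isGaussian_map
  have h3 : AEMeasurable ξ P := aemeasurable_of_mem_span hW hξ
  rw [h2]
  congr 1
  · rw [integral_map h3 (by fun_prop)]
    exact integral_of_mem_span hW hW0 hξ
  · congr 1
    rw [variance_map aemeasurable_id h3, ← hv, covariance_self h3]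
    rfl

/-! ### Measures of intervals under Gaussian laws -/

lemma gaussianReal_Icc_le {v : ℝ≥0} (hv : v ≠ 0) (a b : ℝ) :
    gaussianReal 0 v (Set.Icc a b) ≤ ENNReal.ofReal ((b - a) / √(2 * Real.pi * v)) := by
  rw [gaussianReal_apply 0 hv]
  have hv' : (0 : ℝ) < v := by positivity
  calc ∫⁻ x in Set.Icc a b, gaussianPDF 0 v x
      ≤ ∫⁻ x in Set.Icc a b, ENNReal.ofReal ((√(2 * Real.pi * v))⁻¹) := by
        refine lintegral_mono fun x ↦ ?_
        rw [gaussianPDF, gaussianPDFReal_def]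
        apply ENNReal.ofReal_le_ofReal
        have : Real.exp (-(x - 0) ^ 2 / (2 * v)) ≤ 1 := by
          rw [Real.exp_le_one_iff]
          apply div_nonpos_of_nonpos_of_nonneg
          · nlinarith [sq_nonneg (x - 0)]
          · positivity
        exact mul_le_of_le_one_right (by positivity) this
    _ = ENNReal.ofReal ((b - a) / √(2 * Real.pi * v)) := by
        rw [lintegral_const, Measure.restrict_apply MeasurableSet.univ, Set.univ_inter,
          Real.volume_Icc, ← ENNReal.ofReal_mul (by positivity)]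
        congr 1
        ring

lemma gaussianReal_Ioc_ge {v : ℝ≥0} (hv : v ≠ 0) {R a b : ℝ}
    (ha : -R ≤ a) (hb : b ≤ R) :
    ENNReal.ofReal ((b - a) * ((√(2 * Real.pi * v))⁻¹ * Real.exp (-R ^ 2 / (2 * v)))) ≤
      gaussianReal 0 v (Set.Ioc a b) := by
  rw [gaussianReal_apply 0 hv]
  have hv' : (0 : ℝ) < v := by positivity
  calc ENNReal.ofReal ((b - a) * ((√(2 * Real.pi * v))⁻¹ * Real.exp (-R ^ 2 / (2 * v))))
      = ∫⁻ x in Set.Ioc a b, ENNReal.ofReal ((√(2 * Real.pi * v))⁻¹ * Real.exp (-R ^ 2 / (2 * v))) := by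
        rw [lintegral_const, Measure.restrict_apply MeasurableSet.univ, Set.univ_inter,
          Real.volume_Ioc, ← ENNReal.ofReal_mul (by positivity)]
        congr 1
        ring
    _ ≤ ∫⁻ x in Set.Ioc a b, gaussianPDF 0 v x := by
        refine setLIntegral_mono' measurableSet_Ioc fun x hx ↦ ?_
        rw [gaussianPDF, gaussianPDFReal_def]
        apply ENNReal.ofReal_le_ofReal
        apply mul_le_mul_of_nonneg_left _ (by positivity)
        apply Real.exp_le_exp.2
        apply div_le_div_of_nonneg_right _ (by positivity)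
        have h1 : -R ≤ x := ha.trans hx.1.le
        have h2 : x ≤ R := hx.2.trans hb
        nlinarith

/-! ### Conditional Gaussian smoothing -/

/-- If `ξ` is a centered Gaussian variable with variance `v`, independent of `Y`, then given any
event depending on `Y`, the variable `F(Y) + c ξ` hits an interval of length `2 ε` with
probability at most `2 ε / (|c| √(2 π v))`. -/
lemma smoothing {𝒴 : Type*} {m𝒴 : MeasurableSpace 𝒴} [IsProbabilityMeasure P]
    {Y : Ω → 𝒴} {ξ : Ω → ℝ} (hY : AEMeasurable Y P) (hξ : AEMeasurable ξ P)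
    (hind : IndepFun Y ξ P) {v : ℝ≥0} (hv : v ≠ 0) (hlaw : P.map ξ = gaussianReal 0 v)
    {A : Set 𝒴} (hA : MeasurableSet A) {F : 𝒴 → ℝ} (hF : Measurable F) {c : ℝ} (hc : 0 < c)
    (ε : ℝ) :
    P {ω | Y ω ∈ A ∧ |F (Y ω) + c * ξ ω| ≤ ε} ≤
      P {ω | Y ω ∈ A} * ENNReal.ofReal (2 * ε / (c * √(2 * Real.pi * v))) := by
  have hpair : AEMeasurable (fun ω ↦ (Y ω, ξ ω)) P := hY.prodMk hξ
  have hprod := (indepFun_iff_map_prod_eq_prod_map_map hY hξ).1 hind
  set E : Set (𝒴 × ℝ) := {p | p.1 ∈ A ∧ |F p.1 + c * p.2| ≤ ε} with hE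
  have hEm : MeasurableSet E := by
    have h1 : MeasurableSet {p : 𝒴 × ℝ | p.1 ∈ A} := measurable_fst hA
    have h2 : MeasurableSet {p : 𝒴 × ℝ | |F p.1 + c * p.2| ≤ ε} :=
      measurableSet_le (by fun_prop) measurable_const
    exact h1.inter h2
  have h1 : P {ω | Y ω ∈ A ∧ |F (Y ω) + c * ξ ω| ≤ ε} = P.map (fun ω ↦ (Y ω, ξ ω)) E := by
    rw [Measure.map_apply_of_aemeasurable hpair hEm]; rfl
  have : IsProbabilityMeasure (P.map ξ) := Measure.isProbabilityMeasure_map hξ
  rw [h1, hprod, Measure.prod_apply hEm, hlaw]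
  have h2 : P {ω | Y ω ∈ A} = P.map Y A := by
    rw [Measure.map_apply_of_aemeasurable hY hA]; rfl
  rw [h2, mul_comm, ← setLIntegral_const, ← lintegral_indicator hA]
  refine lintegral_mono fun y ↦ ?_
  by_cases hy : y ∈ A
  · rw [Set.indicator_of_mem hy]
    have h3 : Prod.mk y ⁻¹' E = Set.Icc ((-ε - F y) / c) ((ε - F y) / c) := by
      ext g
      simp only [hE, Set.mem_preimage, Set.mem_ofPred_eq, hy, true_and, Set.mem_Icc]
      rw [abs_le, div_le_iff₀ hc, le_div_iff₀ hc]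
      constructor
      · rintro ⟨h, h'⟩; constructor <;> linarith
      · rintro ⟨h, h'⟩; constructor <;> linarith
    rw [h3]
    refine (gaussianReal_Icc_le hv _ _).trans (ENNReal.ofReal_le_ofReal (le_of_eq ?_))
    have hv' : (0 : ℝ) < v := by positivity
    field_simp
    ring
  · have h3 : Prod.mk y ⁻¹' E = ∅ := by
      ext g
      simp [hE, hy]
    rw [h3]; simp

/-- Lower bound version. -/
lemma smoothing_lower {𝒴 : Type*} {m𝒴 : MeasurableSpace 𝒴} [IsProbabilityMeasure P]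
    {Y : Ω → 𝒴} {ξ : Ω → ℝ} (hY : AEMeasurable Y P) (hξ : AEMeasurable ξ P)
    (hind : IndepFun Y ξ P)
    {A : Set 𝒴} (hA : MeasurableSet A) {E : Set (𝒴 × ℝ)} (hE : MeasurableSet E)
    {κ : ℝ≥0∞} (hκ : ∀ y ∈ A, κ ≤ P.map ξ (Prod.mk y ⁻¹' E)) :
    P {ω | Y ω ∈ A} * κ ≤ P {ω | (Y ω, ξ ω) ∈ E} := by
  have hpair : AEMeasurable (fun ω ↦ (Y ω, ξ ω)) P := hY.prodMk hξ
  have hprod := (indepFun_iff_map_prod_eq_prod_map_map hY hξ).1 hind
  have h1 : P {ω | (Y ω, ξ ω) ∈ E} = P.map (fun ω ↦ (Y ω, ξ ω)) E := by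
    rw [Measure.map_apply_of_aemeasurable hpair hE]; rfl
  have : IsProbabilityMeasure (P.map ξ) := Measure.isProbabilityMeasure_map hξ
  rw [h1, hprod, Measure.prod_apply hE]
  have h2 : P {ω | Y ω ∈ A} = P.map Y A := by
    rw [Measure.map_apply_of_aemeasurable hY hA]; rfl
  rw [h2, mul_comm, ← setLIntegral_const, ← lintegral_indicator hA]
  refine lintegral_mono fun y ↦ ?_
  by_cases hy : y ∈ A
  · rw [Set.indicator_of_mem hy]
    exact hκ y hy
  · rw [Set.indicator_of_notMem hy]; simp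

end Pool.Agent.Lib.MP_8cdf0c_pr
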