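import Mathlib

open MeasureTheory ProbabilityTheory
open scoped NNReal ENNReal

namespace Pool.Agent.Lib.MP_8cdf0c_pr

/-! ### Minima of continuous functions over compact intervals, through rational times -/

/-- Clamp a real number to the interval `[a, b]`. -/
noncomputable def clamp (a b x : ℝ) : ℝ := max a (min b x)

/-- Infimum of `x` over `[a, b]`, computed along clamped rational times. -/
noncomputable def mi (x : ℝ → ℝ) (a b : ℝ) : ℝ := ⨅ q : ℚ, x (clamp a b q)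

lemma clamp_mem {a b : ℝ} (hab : a ≤ b) (x : ℝ) : clamp a b x ∈ Set.Icc a b :=
  ⟨le_max_left _ _, max_le hab (min_le_left _ _)⟩

lemma clamp_eq {a b x : ℝ} (hx : x ∈ Set.Icc a b) : clamp a b x = x := by
  rw [clamp, min_eq_right hx.2, max_eq_right hx.1]

lemma mi_spec {x : ℝ → ℝ} (hx : Continuous x) {a b : ℝ} (hab : a ≤ b) :
    ∃ t ∈ Set.Icc a b, mi x a b = x t ∧ ∀ s ∈ Set.Icc a b, x t ≤ x s := by
  obtain ⟨t, ht, hmin⟩ := isCompact_Icc.exists_isMinOn (Set.nonempty_Icc.2 hab) hx.continuousOn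
  refine ⟨t, ht, ?_, fun s hs ↦ hmin hs⟩
  have hlow : ∀ q : ℚ, x t ≤ x (clamp a b q) := fun q ↦ hmin (clamp_mem hab _)
  apply le_antisymm
  · apply le_of_forall_gt
    intro y hy
    have hcont : Continuous (fun r : ℝ ↦ x (clamp a b r)) := by
      apply hx.comp
      unfold clamp
      fun_prop
    have hopen : IsOpen {r : ℝ | x (clamp a b r) < y} := isOpen_lt hcont continuous_const
    have hne : ({r : ℝ | x (clamp a b r) < y}).Nonempty := ⟨t, by
      simp only [Set.mem_ofPred_eq]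
      rw [clamp_eq ht]; exact hy⟩
    obtain ⟨q, hq⟩ := Rat.denseRange_cast.exists_mem_open hopen hne
    exact (ciInf_le ⟨x t, by rintro _ ⟨q, rfl⟩; exact hlow q⟩ q).trans_lt hq
  · exact le_ciInf hlow

lemma mi_le {x : ℝ → ℝ} (hx : Continuous x) {a b t : ℝ} (ht : t ∈ Set.Icc a b) :
    mi x a b ≤ x t := by
  obtain ⟨s, _, hs, h⟩ := mi_spec hx (ht.1.trans ht.2)
  rw [hs]; exact h t ht

lemma exists_mi {x : ℝ → ℝ} (hx : Continuous x) {a b : ℝ} (hab : a ≤ b) :
    ∃ t ∈ Set.Icc a b, mi x a b = x t := by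
  obtain ⟨s, hs, hs', _⟩ := mi_spec hx hab
  exact ⟨s, hs, hs'⟩

lemma le_mi {x : ℝ → ℝ} (hx : Continuous x) {a b c : ℝ} (hab : a ≤ b)
    (h : ∀ t ∈ Set.Icc a b, c ≤ x t) : c ≤ mi x a b := by
  obtain ⟨s, hs, hs'⟩ := exists_mi hx hab
  rw [hs']; exact h s hs

/-- Adding a constant. -/
lemma ciInf_add_const {f g : ℚ → ℝ} {c : ℝ} (hf : BddBelow (Set.range f))
    (h : ∀ q, g q = f q + c) : (⨅ q, g q) = (⨅ q, f q) + c := by
  have : g = fun q ↦ f q + c := funext h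
  rw [this]
  exact (ciInf_add hf c).symm

lemma bddBelow_clamp {x : ℝ → ℝ} (hx : Continuous x) {a b : ℝ} (hab : a ≤ b) :
    BddBelow (Set.range (fun q : ℚ ↦ x (clamp a b q))) := by
  obtain ⟨t, _, _, h⟩ := mi_spec hx hab
  exact ⟨x t, by rintro _ ⟨q, rfl⟩; exact h _ (clamp_mem hab _)⟩

/-- The increment function of a path. -/
def inc (w : ℝ → ℝ) (l t : ℝ) : ℝ := w (t + l) - w t

lemma continuous_inc {w : ℝ → ℝ} (hw : Continuous w) (l : ℝ) : Continuous (inc w l) := by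
  unfold inc; fun_prop

/-! ### Localisation of the minimisers -/

/-- The `i`-th cell of mesh `a` in `[0, T]`: left end. -/
noncomputable def lo (a T : ℝ) (i : ℕ) : ℝ := min (i * a) T
/-- The `i`-th cell of mesh `a` in `[0, T]`: right end. -/
noncomputable def hi (a T : ℝ) (i : ℕ) : ℝ := min ((i + 1) * a) T

lemma lo_le_hi {a T : ℝ} (ha : 0 ≤ a) (i : ℕ) : lo a T i ≤ hi a T i := by
  unfold lo hi
  apply min_le_min_right
  nlinarith

/-- The event that the `i`-th cell is the first one, among the first `K` cells, at which the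
minimum (given by the cell minima `c`) is attained. -/
def IsFirst (K : ℕ) (c : ℕ → ℝ) (i : ℕ) : Prop := (∀ j < K, c i ≤ c j) ∧ ∀ j < i, c i < c j

lemma exists_isFirst {K : ℕ} (hK : 0 < K) (c : ℕ → ℝ) : ∃ i < K, IsFirst K c i := by
  classical
  obtain ⟨m, hm, hmin⟩ := Finset.exists_min_image (Finset.range K) c ⟨0, by simpa using hK⟩
  have hex : ∃ i, i < K ∧ ∀ j < K, c i ≤ c j :=
    ⟨m, by simpa using hm, fun j hj ↦ hmin j (by simpa using hj)⟩
  refine ⟨Nat.find hex, (Nat.find_spec hex).1, (Nat.find_spec hex).2, fun j hj ↦ ?_⟩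
  have h1 := Nat.find_min hex hj
  push Not at h1
  obtain ⟨k, hk, hlt⟩ := h1 (hj.trans (Nat.find_spec hex).1)
  exact ((Nat.find_spec hex).2 k hk).trans_lt hlt

lemma isFirst_unique {K : ℕ} {c : ℕ → ℝ} {i i' : ℕ} (hi : i < K) (hi' : i' < K)
    (h : IsFirst K c i) (h' : IsFirst K c i') : i = i' := by
  rcases lt_trichotomy i i' with hlt | heq | hgt
  · exact absurd (h'.2 i hlt) (not_lt.2 (h.1 i' hi'))
  · exact heq
  · exact absurd (h.2 i' hgt) (not_lt.2 (h'.1 i hi))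

/-- The left end of the enlarged window around cell `i`. -/
noncomputable def al (a : ℝ) (i : ℕ) : ℝ := max 0 (((i : ℝ) - 2) * a)
/-- The right end of the enlarged window around cell `i`. -/
noncomputable def be (a T : ℝ) (i : ℕ) : ℝ := min T (((i : ℝ) + 4) * a)

/-- The deterministic near/far decomposition. -/
lemma near_far {w : ℝ → ℝ} (hw : Continuous w) {l l' a ε : ℝ} (ha : 0 < a) (hll' : l < l')
    (hl'1 : l' < 1) (hla : l' - l ≤ a)
    (h : |mi (inc w l') 0 (1 - l') - mi (inc w l) 0 (1 - l)| ≤ ε) :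
    (∃ q < ⌈(1 - l) / a⌉₊, ((q : ℝ) + 1) * a ≤ 1 - l' ∧
      |mi (inc w l) 0 (q * a) - mi (inc w l') ((q + 1) * a) (1 - l')| ≤ ε) ∨
    (∃ q < ⌈(1 - l) / a⌉₊, ((q : ℝ) + 1) * a ≤ 1 - l ∧
      |mi (inc w l') 0 (q * a) - mi (inc w l) ((q + 1) * a) (1 - l)| ≤ ε) ∨
    (∃ i < ⌈(1 - l) / a⌉₊, al a i ≤ be a (1 - l) i - (l' - l) ∧
      IsFirst ⌈(1 - l) / a⌉₊ (fun j ↦ mi (inc w l) (lo a (1 - l) j) (hi a (1 - l) j)) i ∧
      |mi (inc w l') (al a i) (be a (1 - l) i - (l' - l)) -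
        mi (inc w l) (lo a (1 - l) i) (hi a (1 - l) i)| ≤ ε) := by
  set K := ⌈(1 - l) / a⌉₊ with hK
  set c : ℕ → ℝ := fun j ↦ mi (inc w l) (lo a (1 - l) j) (hi a (1 - l) j) with hc
  have hT : 0 < 1 - l := by linarith
  have hK0 : 0 < K := Nat.ceil_pos.2 (div_pos hT ha)
  have hXl := continuous_inc hw l
  have hXl' := continuous_inc hw l'
  obtain ⟨i, hiK, hfirst⟩ := exists_isFirst hK0 c
  have hia : (i : ℝ) * a < 1 - l := by
    have := Nat.lt_ceil.1 hiK
    rwa [lt_div_iff₀ ha] at this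
  have hKa : 1 - l ≤ (K : ℝ) * a := by
    have := Nat.le_ceil ((1 - l) / a)
    rwa [div_le_iff₀ ha] at this
  -- the minimum over the cell is the global minimum
  obtain ⟨t₀, ht₀, ht₀'⟩ := exists_mi hXl (lo_le_hi (T := 1 - l) ha.le i)
  have hlo : lo a (1 - l) i = i * a := min_eq_left hia.le
  have ht₀1 : (i : ℝ) * a ≤ t₀ := hlo ▸ ht₀.1
  have ht₀2 : t₀ ≤ ((i : ℝ) + 1) * a := ht₀.2.trans (min_le_left _ _)
  have ht₀3 : t₀ ≤ 1 - l := ht₀.2.trans (min_le_right _ _)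
  have ht₀0 : 0 ≤ t₀ := le_trans (by positivity) ht₀1
  have hglob : ∀ s ∈ Set.Icc 0 (1 - l), inc w l t₀ ≤ inc w l s := by
    intro s hs
    -- find the cell of `s`
    obtain ⟨j, hj, hsj⟩ : ∃ j < K, s ∈ Set.Icc (lo a (1 - l) j) (hi a (1 - l) j) := by
      by_cases hs1 : s = 0
      · refine ⟨0, hK0, ?_⟩
        subst hs1
        constructor
        · simp [lo]
        · simp [hi, ha.le, hT.le]
      · have hs0 : 0 < s := lt_of_le_of_ne hs.1 (Ne.symm hs1)
        have hceil : 0 < ⌈s / a⌉₊ := Nat.ceil_pos.2 (div_pos hs0 ha)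
        refine ⟨⌈s / a⌉₊ - 1, ?_, ?_, ?_⟩
        · have h1 : ⌈s / a⌉₊ ≤ K := by
            rw [Nat.ceil_le, div_le_iff₀ ha]
            exact hs.2.trans hKa
          omega
        · have h2 : ((⌈s / a⌉₊ - 1 : ℕ) : ℝ) < s / a := by
            apply Nat.lt_ceil.1
            omega
          rw [lt_div_iff₀ ha] at h2
          exact (min_le_left _ _).trans h2.le
        · have h2 : s / a ≤ ⌈s / a⌉₊ := Nat.le_ceil _
          rw [div_le_iff₀ ha] at h2
          have h3 : ((⌈s / a⌉₊ - 1 : ℕ) : ℝ) + 1 = ⌈s / a⌉₊ := by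
            have : (⌈s / a⌉₊ - 1 : ℕ) + 1 = ⌈s / a⌉₊ := by omega
            exact_mod_cast this
          exact le_min (by rw [h3]; exact h2) hs.2
    rw [← ht₀']
    exact (hfirst.1 j hj).trans (mi_le hXl hsj)
  obtain ⟨t₁, ht₁, ht₁'⟩ := exists_mi hXl' (show (0 : ℝ) ≤ 1 - l' by linarith)
  have hglob' : ∀ s ∈ Set.Icc 0 (1 - l'), inc w l' t₁ ≤ inc w l' s := by
    intro s hs
    rw [← ht₁']; exact mi_le hXl' hs
  have hm : mi (inc w l) 0 (1 - l) = inc w l t₀ :=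
    le_antisymm (mi_le hXl ⟨ht₀0, ht₀3⟩) (le_mi hXl hT.le hglob)
  -- general: if an interval contains the minimiser and is inside then mi is the same
  have key : ∀ u v, 0 ≤ u → v ≤ 1 - l → t₀ ∈ Set.Icc u v → mi (inc w l) u v = inc w l t₀ := by
    intro u v hu hv ht
    exact le_antisymm (mi_le hXl ht) (le_mi hXl (ht.1.trans ht.2)
      fun s hs ↦ hglob s ⟨hu.trans hs.1, hs.2.trans hv⟩)
  have key' : ∀ u v, 0 ≤ u → v ≤ 1 - l' → t₁ ∈ Set.Icc u v →
      mi (inc w l') u v = inc w l' t₁ := by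
    intro u v hu hv ht
    exact le_antisymm (mi_le hXl' ht) (le_mi hXl' (ht.1.trans ht.2)
      fun s hs ↦ hglob' s ⟨hu.trans hs.1, hs.2.trans hv⟩)
  rw [hm, ht₁'] at h
  rcases le_or_gt (t₀ + 2 * a) t₁ with hfar | hfar
  · -- far, `t₀` to the left
    left
    have hq1 : t₀ ≤ (⌈t₀ / a⌉₊ : ℝ) * a := by
      have := Nat.le_ceil (t₀ / a)
      rwa [div_le_iff₀ ha] at this
    have hq2 : (⌈t₀ / a⌉₊ : ℝ) * a < t₀ + a := by
      have := Nat.ceil_lt_add_one (div_nonneg ht₀0 ha.le)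
      have h2 := mul_lt_mul_of_pos_right this ha
      rw [add_mul, div_mul_cancel₀ _ ha.ne', one_mul] at h2
      exact h2
    have hq3 : ((⌈t₀ / a⌉₊ : ℝ) + 1) * a ≤ t₁ := by linarith
    refine ⟨⌈t₀ / a⌉₊, ?_, hq3.trans ht₁.2, ?_⟩
    · have : ((⌈t₀ / a⌉₊ : ℝ) + 1) * a ≤ K * a := by
        refine (hq3.trans ht₁.2).trans (le_trans ?_ hKa)
        linarith
      have h2 := le_of_mul_le_mul_right this ha
      have h3 : ⌈t₀ / a⌉₊ + 1 ≤ K := by exact_mod_cast h2
      omega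
    · rw [key 0 _ le_rfl (by linarith [ht₁.2]) ⟨ht₀0, hq1⟩,
        key' _ _ (by positivity) le_rfl ⟨hq3, ht₁.2⟩, abs_sub_comm]
      exact h
  · rcases le_or_gt (t₁ + 2 * a) t₀ with hfar' | hfar'
    · -- far, `t₁` to the left
      right; left
      have hq1 : t₁ ≤ (⌈t₁ / a⌉₊ : ℝ) * a := by
        have := Nat.le_ceil (t₁ / a)
        rwa [div_le_iff₀ ha] at this
      have hq2 : (⌈t₁ / a⌉₊ : ℝ) * a < t₁ + a := by
        have := Nat.ceil_lt_add_one (div_nonneg ht₁.1 ha.le)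
        have h2 := mul_lt_mul_of_pos_right this ha
        rw [add_mul, div_mul_cancel₀ _ ha.ne', one_mul] at h2
        exact h2
      have hq3 : ((⌈t₁ / a⌉₊ : ℝ) + 1) * a ≤ t₀ := by linarith
      refine ⟨⌈t₁ / a⌉₊, ?_, hq3.trans ht₀3, ?_⟩
      · have : ((⌈t₁ / a⌉₊ : ℝ) + 1) * a ≤ K * a := (hq3.trans ht₀3).trans hKa
        have h2 := le_of_mul_le_mul_right this ha
        have h3 : ⌈t₁ / a⌉₊ + 1 ≤ K := by exact_mod_cast h2
        omega
      · by_cases hle : (⌈t₁ / a⌉₊ : ℝ) * a ≤ 1 - l'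
        · rw [key' 0 _ le_rfl hle ⟨ht₁.1, hq1⟩, key _ _ (by positivity) le_rfl ⟨hq3, ht₀3⟩]
          exact h
        · exfalso
          push Not at hle
          linarith [ht₁.2]
    · -- near
      right; right
      have hmem : t₁ ∈ Set.Icc (al a i) (be a (1 - l) i - (l' - l)) := by
        constructor
        · apply max_le ht₁.1
          nlinarith
        · rw [le_sub_iff_add_le]
          apply le_min
          · linarith [ht₁.2]
          · nlinarith
      refine ⟨i, hiK, hmem.1.trans hmem.2, hfirst, ?_⟩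
      have hbe : be a (1 - l) i ≤ 1 - l := min_le_left _ _
      have hal : 0 ≤ al a i := le_max_left _ _
      rw [key' (al a i) (be a (1 - l) i - (l' - l)) hal (by linarith) hmem, ht₀']
      exact h

end Pool.Agent.Lib.MP_8cdf0c_pr
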