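import Mathlib
import Pool.Agent.Lib.MP_8cdf0c_pr.Gauss
import Pool.Agent.Lib.MP_8cdf0c_pr.Paths

open MeasureTheory ProbabilityTheory
open scoped NNReal ENNReal

namespace Pool.Agent.Lib.MP_8cdf0c_pr

variable {Ω : Type*} {mΩ : MeasurableSpace Ω} {P : Measure Ω}

/-- The properties of Brownian motion (with real time parameter, junk for negative times) that are
used in the proof. -/
structure IsBM (W : ℝ → Ω → ℝ) (P : Measure Ω) : Prop where
  gauss : IsGaussianProcess W P
  cov : ∀ s t : ℝ, 0 ≤ s → 0 ≤ t → cov[W s, W t; P] = min s t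
  mean : ∀ t, ∫ ω, W t ω ∂P = 0
  cont : ∀ᵐ ω ∂P, Continuous (fun t ↦ W t ω)

lemma isBM_of_isBrownianReal {B : ℝ≥0 → Ω → ℝ} (hB : IsBrownianReal B P) :
    IsBM (fun t : ℝ ↦ B t.toNNReal) P where
  gauss := hB.isGaussianProcess.comp_right Real.toNNReal
  cov s t hs ht := by
    rw [hB.covariance_eval]
    have := Real.coe_toNNReal s hs
    have := Real.coe_toNNReal t ht
    rw [NNReal.coe_min]
    simp [*]
  mean t := hB.integral_eval _
  cont := by
    filter_upwards [hB.cont] with ω hω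
    exact hω.comp continuous_real_toNNReal

variable {W : ℝ → Ω → ℝ}

lemma IsBM.isProb (hW : IsBM W P) : IsProbabilityMeasure P := hW.gauss.isProbabilityMeasure

/-- the span -/
abbrev spanW (W : ℝ → Ω → ℝ) : Submodule ℝ (Ω → ℝ) := Submodule.span ℝ (Set.range W)

lemma mem_spanW (t : ℝ) : W t ∈ spanW W := Submodule.subset_span ⟨t, rfl⟩

lemma sub_mem_spanW (s t : ℝ) : W s - W t ∈ spanW W :=
  Submodule.sub_mem _ (mem_spanW s) (mem_spanW t)

lemma IsBM.memLp (hW : IsBM W P) {Z : Ω → ℝ} (hZ : Z ∈ spanW W) : MemLp Z 2 P :=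
  (hasGaussianLaw_of_mem_span hW.gauss hZ).memLp_two

lemma IsBM.cov4 (hW : IsBM W P) {a b c d : ℝ} (ha : 0 ≤ a) (hb : 0 ≤ b) (hc : 0 ≤ c)
    (hd : 0 ≤ d) :
    cov[W a - W b, W c - W d; P] = min a c - min a d - (min b c - min b d) := by
  have := hW.isProb
  have h := fun t ↦ hW.memLp (mem_spanW (W := W) t)
  rw [covariance_sub_left (h a) (h b) ((h c).sub (h d)),
    covariance_sub_right (h a) (h c) (h d), covariance_sub_right (h b) (h c) (h d),
    hW.cov _ _ ha hc, hW.cov _ _ ha hd, hW.cov _ _ hb hc, hW.cov _ _ hb hd]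

lemma measurable_ciInf_eval {ι : Type*} (g : ℚ → ι) :
    Measurable (fun y : ι → ℝ ↦ ⨅ q : ℚ, y (g q)) :=
  Measurable.iInf fun q ↦ measurable_pi_apply (g q)

/-- Far estimate. -/
lemma IsBM.far_bound (hW : IsBM W P) {l l' u v : ℝ} (hu : 0 ≤ u) (huv : u < v)
    (hv : v ≤ 1 - l') (hl : 1 / 2 ≤ l) (hl' : 1 / 2 ≤ l') (ε : ℝ) :
    P {ω | |mi (inc (W · ω) l) 0 u - mi (inc (W · ω) l') v (1 - l')| ≤ ε} ≤
      ENNReal.ofReal (2 * ε / √(2 * Real.pi * (v - u))) := by
  have := hW.isProb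
  set ξ : Ω → ℝ := W v - W u with hξdef
  have hξ : ξ ∈ spanW W := sub_mem_spanW _ _
  let Y : ℚ ⊕ ℚ → Ω → ℝ := Sum.elim
    (fun q ↦ (W (clamp 0 u q + l) - W (clamp 0 u q)) - ξ)
    (fun q ↦ W (clamp v (1 - l') q + l') - W (clamp v (1 - l') q))
  have hYmem : ∀ s, Y s ∈ spanW W := by
    rintro (q | q)
    · exact Submodule.sub_mem _ (sub_mem_spanW _ _) hξ
    · exact sub_mem_spanW _ _
  have hcovξ : cov[ξ, ξ; P] = v - u := by
    rw [hξdef, hW.cov4 (by linarith) hu (by linarith) hu]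
    rw [min_self, min_self, min_eq_right huv.le, min_eq_left huv.le]
    ring
  have hcov : ∀ s, cov[Y s, ξ; P] = 0 := by
    rintro (q | q)
    · change cov[(W (clamp 0 u q + l) - W (clamp 0 u q)) - ξ, ξ; P] = 0
      have hq := clamp_mem hu (q : ℝ)
      rw [covariance_sub_left (hW.memLp (sub_mem_spanW _ _)) (hW.memLp hξ) (hW.memLp hξ), hcovξ,
        hξdef, hW.cov4 (by linarith [hq.1]) hq.1 (by linarith) hu,
        min_eq_right (by linarith [hq.1, hq.2]), min_eq_right (by linarith [hq.1, hq.2]),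
        min_eq_left (by linarith [hq.1, hq.2]), min_eq_left (by linarith [hq.1, hq.2])]
      ring
    · change cov[W (clamp v (1 - l') q + l') - W (clamp v (1 - l') q), ξ; P] = 0
      have hq := clamp_mem hv (q : ℝ)
      rw [hξdef, hW.cov4 (by linarith [hq.1]) (by linarith [hq.1]) (by linarith) hu,
        min_eq_right (by linarith [hq.1, hq.2]), min_eq_right (by linarith [hq.1, hq.2]),
        min_eq_right (by linarith [hq.1, hq.2]), min_eq_right (by linarith [hq.1, hq.2])]
      ring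
  have hlaw : P.map ξ = gaussianReal 0 (v - u).toNNReal :=
    map_of_mem_span hW.gauss hW.mean hξ hcovξ
  have hindep := indepFun_of_mem_span hW.gauss hYmem hξ hcov
  have hYm : AEMeasurable (fun ω s ↦ Y s ω) P :=
    aemeasurable_pi_lambda _ fun s ↦ aemeasurable_of_mem_span hW.gauss (hYmem s)
  have hξm := aemeasurable_of_mem_span hW.gauss hξ
  let F : (ℚ ⊕ ℚ → ℝ) → ℝ := fun y ↦ (⨅ q : ℚ, y (Sum.inl q)) - ⨅ q : ℚ, y (Sum.inr q)
  have hF : Measurable F := (measurable_ciInf_eval _).sub (measurable_ciInf_eval _)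
  have hvu : (v - u).toNNReal ≠ 0 := by
    rw [Ne, Real.toNNReal_eq_zero]; linarith
  have h1 := smoothing hYm hξm hindep hvu hlaw MeasurableSet.univ hF one_pos ε
  have hcoe : ((v - u).toNNReal : ℝ) = v - u := Real.coe_toNNReal _ (by linarith)
  simp only [Set.mem_univ, true_and, one_mul, hcoe] at h1
  have hun : P {ω : Ω | True} = 1 := by simp
  rw [hun, one_mul] at h1
  refine le_trans (measure_mono_ae ?_) h1
  filter_upwards [hW.cont] with ω hω hmem
  change |F (fun s ↦ Y s ω) + ξ ω| ≤ ε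
  change |mi (inc (W · ω) l) 0 u - mi (inc (W · ω) l') v (1 - l')| ≤ ε at hmem
  have hX := continuous_inc hω l
  have e1 : mi (inc (W · ω) l) 0 u = (⨅ q : ℚ, Y (Sum.inl q) ω) + ξ ω := by
    have hb := bddBelow_clamp hX hu
    have := ciInf_add_const (f := fun q : ℚ ↦ inc (W · ω) l (clamp 0 u q))
      (g := fun q : ℚ ↦ Y (Sum.inl q) ω) (c := - ξ ω) hb (fun q ↦ by
        simp only [Y, inc, Sum.elim_inl, Pi.sub_apply]; ring)
    rw [this]
    unfold mi
    ring
  have e2 : mi (inc (W · ω) l') v (1 - l') = ⨅ q : ℚ, Y (Sum.inr q) ω := rfl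
  rw [e1, e2] at hmem
  convert hmem using 2
  simp only [F]
  ring

/-- Near estimate. -/
lemma IsBM.near_bound (hW : IsBM W P) {l l' a : ℝ} (ha : 0 < a) (hl : 1 / 2 ≤ l) (hll' : l < l')
    (hl'1 : l' < 1) (K i : ℕ) (hab : al a i ≤ be a (1 - l) i - (l' - l)) {ε : ℝ} (hε : 0 ≤ ε) :
    P {ω | IsFirst K (fun j ↦ mi (inc (W · ω) l) (lo a (1 - l) j) (hi a (1 - l) j)) i ∧
      |mi (inc (W · ω) l') (al a i) (be a (1 - l) i - (l' - l)) -
        mi (inc (W · ω) l) (lo a (1 - l) i) (hi a (1 - l) i)| ≤ ε} ≤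
    P {ω | IsFirst K (fun j ↦ mi (inc (W · ω) l) (lo a (1 - l) j) (hi a (1 - l) j)) i} *
      ENNReal.ofReal (2 * ε * √(6 * a) / ((l' - l) * √Real.pi)) := by
  have := hW.isProb
  set δ : ℝ := l' - l with hδ
  have hδ0 : 0 < δ := by linarith
  set α : ℝ := al a i with hα
  set β : ℝ := be a (1 - l) i with hβ
  have hα0 : 0 ≤ α := le_max_left _ _
  have hβ1 : β ≤ 1 - l := min_le_left _ _
  have hαβ : α < β := by linarith
  have hlen : β - α ≤ 6 * a := by
    have h1 : β ≤ ((i : ℝ) + 4) * a := min_le_right _ _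
    have h2 : ((i : ℝ) - 2) * a ≤ α := le_max_right _ _
    nlinarith
  set ξ : Ω → ℝ := (W (β + l) - W (α + l)) + (W β - W α) with hξdef
  have hξ : ξ ∈ spanW W := Submodule.add_mem _ (sub_mem_spanW _ _) (sub_mem_spanW _ _)
  have hcovW : ∀ {s t : ℝ}, 0 ≤ s → 0 ≤ t → cov[W s - W t, ξ; P] =
      min s (β + l) - min s (α + l) - (min t (β + l) - min t (α + l)) +
      (min s β - min s α - (min t β - min t α)) := by
    intro s t hs ht
    rw [hξdef, covariance_add_right (hW.memLp (sub_mem_spanW _ _)) (hW.memLp (sub_mem_spanW _ _))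
      (hW.memLp (sub_mem_spanW _ _)), hW.cov4 hs ht (by linarith) (by linarith),
      hW.cov4 hs ht (by linarith) (by linarith)]
  have hcovξ : cov[ξ, ξ; P] = 2 * (β - α) := by
    have h0 : cov[(W (β + l) - W (α + l)) + (W β - W α), ξ; P] = 2 * (β - α) := ?_
    · exact h0
    rw [covariance_add_left (hW.memLp (sub_mem_spanW _ _)) (hW.memLp (sub_mem_spanW _ _))
      (hW.memLp hξ), hcovW (by linarith) (by linarith),
      hcovW (by linarith) (by linarith), min_self, min_eq_right (show α + l ≤ β + l by linarith),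
      min_eq_left (show α + l ≤ β + l by linarith), min_self,
      min_eq_right (show β ≤ β + l by linarith), min_eq_right (show α ≤ β + l by linarith),
      min_eq_right (show β ≤ α + l by linarith), min_eq_right (show α ≤ α + l by linarith),
      min_eq_left (show β ≤ β + l by linarith), min_eq_left (show β ≤ α + l by linarith),
      min_eq_left (show α ≤ β + l by linarith), min_eq_left (show α ≤ α + l by linarith),
      min_self, min_eq_right hαβ.le, min_eq_left hαβ.le, min_self]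
    ring
  set c : ℝ := δ / (2 * (β - α)) with hc
  have hc0 : 0 < c := div_pos hδ0 (by linarith)
  let τ : ℕ × ℚ → ℝ := fun p ↦ clamp (lo a (1 - l) p.1) (hi a (1 - l) p.1) p.2
  have hlo0 : ∀ j, 0 ≤ lo a (1 - l) j := fun j ↦ le_min (by positivity) (by linarith)
  have hτ0 : ∀ p, 0 ≤ τ p := fun p ↦ (hlo0 p.1).trans (clamp_mem (lo_le_hi ha.le p.1) _).1
  have hτ1 : ∀ p, τ p ≤ 1 - l := fun p ↦
    (clamp_mem (lo_le_hi ha.le p.1) _).2.trans (min_le_right _ _)
  let σ : ℚ → ℝ := fun q ↦ clamp α (β - δ) q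
  have hσ0 : ∀ q, α ≤ σ q := fun q ↦ (clamp_mem hab _).1
  have hσ1 : ∀ q, σ q ≤ β - δ := fun q ↦ (clamp_mem hab _).2
  let Y : (ℕ × ℚ) ⊕ ℚ → Ω → ℝ := Sum.elim
    (fun p ↦ (W (τ p + l) - W (τ p)) - (W l - W 0))
    (fun q ↦ (W (σ q + l') - W (σ q)) - (W l - W 0) - c • ξ)
  have hYmem : ∀ s, Y s ∈ spanW W := by
    rintro (q | q)
    · exact Submodule.sub_mem _ (sub_mem_spanW _ _) (sub_mem_spanW _ _)
    · exact Submodule.sub_mem _ (Submodule.sub_mem _ (sub_mem_spanW _ _) (sub_mem_spanW _ _))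
        (Submodule.smul_mem _ _ hξ)
  have hcov0 : cov[W l - W 0, ξ; P] = β - α := by
    rw [hcovW (by linarith) le_rfl, min_eq_left (show l ≤ β + l by linarith),
      min_eq_left (show l ≤ α + l by linarith), min_eq_left (show (0 : ℝ) ≤ β + l by linarith),
      min_eq_left (show (0 : ℝ) ≤ α + l by linarith), min_eq_right (show β ≤ l by linarith),
      min_eq_right (show α ≤ l by linarith), min_eq_left (show (0 : ℝ) ≤ β by linarith),
      min_eq_left (show (0 : ℝ) ≤ α by linarith)]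
    ring
  have hcov : ∀ s, cov[Y s, ξ; P] = 0 := by
    rintro (p | q)
    · change cov[(W (τ p + l) - W (τ p)) - (W l - W 0), ξ; P] = 0
      have h0 := hτ0 p
      have h1 := hτ1 p
      generalize τ p = t at h0 h1 ⊢
      rw [covariance_sub_left (hW.memLp (sub_mem_spanW _ _)) (hW.memLp (sub_mem_spanW _ _))
        (hW.memLp hξ), hcov0, hcovW (by linarith) h0, min_add_add_right, min_add_add_right,
        min_eq_left (show t ≤ β + l by linarith), min_eq_left (show t ≤ α + l by linarith),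
        min_eq_right (show β ≤ t + l by linarith), min_eq_right (show α ≤ t + l by linarith)]
      ring
    · change cov[(W (σ q + l') - W (σ q)) - (W l - W 0) - c • ξ, ξ; P] = 0
      have h0 := hσ0 q
      have h1 := hσ1 q
      generalize σ q = t at h0 h1 ⊢
      rw [covariance_sub_left (hW.memLp (Submodule.sub_mem _ (sub_mem_spanW _ _)
          (sub_mem_spanW _ _))) (hW.memLp (Submodule.smul_mem _ _ hξ)) (hW.memLp hξ),
        covariance_smul_left, hcovξ,
        covariance_sub_left (hW.memLp (sub_mem_spanW _ _)) (hW.memLp (sub_mem_spanW _ _))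
        (hW.memLp hξ), hcov0, hcovW (by linarith) (by linarith),
        min_eq_left (show t + l' ≤ β + l by linarith),
        min_eq_right (show α + l ≤ t + l' by linarith),
        min_eq_left (show t ≤ β + l by linarith), min_eq_left (show t ≤ α + l by linarith),
        min_eq_right (show β ≤ t + l' by linarith), min_eq_right (show α ≤ t + l' by linarith),
        min_eq_left (show t ≤ β by linarith), min_eq_right (show α ≤ t by linarith)]
      have : (β - α) ≠ 0 := by linarith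
      rw [hc]
      field_simp
      rw [hδ]
      ring
  have hv0 : 0 < 2 * (β - α) := by linarith
  have hlaw : P.map ξ = gaussianReal 0 (2 * (β - α)).toNNReal :=
    map_of_mem_span hW.gauss hW.mean hξ hcovξ
  have hindep := indepFun_of_mem_span hW.gauss hYmem hξ hcov
  have hYm : AEMeasurable (fun ω s ↦ Y s ω) P :=
    aemeasurable_pi_lambda _ fun s ↦ aemeasurable_of_mem_span hW.gauss (hYmem s)
  have hξm := aemeasurable_of_mem_span hW.gauss hξ
  let cm : ((ℕ × ℚ) ⊕ ℚ → ℝ) → ℕ → ℝ := fun y j ↦ ⨅ q : ℚ, y (Sum.inl (j, q))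
  have hcm : ∀ j, Measurable (fun y ↦ cm y j) := fun j ↦
    measurable_ciInf_eval (fun q : ℚ ↦ (Sum.inl (j, q) : (ℕ × ℚ) ⊕ ℚ))
  let F : ((ℕ × ℚ) ⊕ ℚ → ℝ) → ℝ := fun y ↦ (⨅ q : ℚ, y (Sum.inr q)) - cm y i
  have hF : Measurable F := (measurable_ciInf_eval _).sub (hcm i)
  let A : Set ((ℕ × ℚ) ⊕ ℚ → ℝ) := {y | IsFirst K (cm y) i}
  have hA : MeasurableSet A := by
    have e : A = (⋂ j ∈ {j | j < K}, {y | cm y i ≤ cm y j}) ∩
        ⋂ j ∈ {j | j < i}, {y | cm y i < cm y j} := by
      ext y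
      simp [A, IsFirst]
    rw [e]
    apply MeasurableSet.inter
    · exact MeasurableSet.biInter (Set.to_countable _)
        fun j _ ↦ measurableSet_le (hcm i) (hcm j)
    · exact MeasurableSet.biInter (Set.to_countable _)
        fun j _ ↦ measurableSet_lt (hcm i) (hcm j)
  have hv : (2 * (β - α)).toNNReal ≠ 0 := by
    rw [Ne, Real.toNNReal_eq_zero]; linarith
  have h1 := smoothing hYm hξm hindep hv hlaw hA hF hc0 ε
  have hcoe : ((2 * (β - α)).toNNReal : ℝ) = 2 * (β - α) := Real.coe_toNNReal _ hv0.le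
  rw [hcoe] at h1
  -- pathwise identification
  have hpath : ∀ᵐ ω ∂P, (∀ j, mi (inc (W · ω) l) (lo a (1 - l) j) (hi a (1 - l) j) =
      cm (fun s ↦ Y s ω) j + (W l ω - W 0 ω)) ∧
      mi (inc (W · ω) l') α (β - δ) = (⨅ q : ℚ, Y (Sum.inr q) ω) + (W l ω - W 0 ω) +
        c * ξ ω := by
    filter_upwards [hW.cont] with ω hω
    constructor
    · intro j
      have hb := bddBelow_clamp (continuous_inc hω l) (lo_le_hi (T := 1 - l) ha.le j)
      have := ciInf_add_const
        (f := fun q : ℚ ↦ inc (W · ω) l (clamp (lo a (1 - l) j) (hi a (1 - l) j) q))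
        (g := fun q : ℚ ↦ Y (Sum.inl (j, q)) ω) (c := - (W l ω - W 0 ω)) hb (fun q ↦ by
          simp only [Y, inc, Sum.elim_inl, Pi.sub_apply, τ]; ring)
      simp only [cm]
      rw [this]
      unfold mi
      ring
    · have hb := bddBelow_clamp (continuous_inc hω l') hab
      have := ciInf_add_const
        (f := fun q : ℚ ↦ inc (W · ω) l' (clamp α (β - δ) q))
        (g := fun q : ℚ ↦ Y (Sum.inr q) ω) (c := - (W l ω - W 0 ω) - c * ξ ω) hb (fun q ↦ by
          simp only [Y, inc, Sum.elim_inr, Pi.sub_apply, Pi.smul_apply, smul_eq_mul, σ]; ring)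
      rw [this]
      unfold mi
      ring
  have hfirst : ∀ᵐ ω ∂P, (IsFirst K (fun j ↦ mi (inc (W · ω) l) (lo a (1 - l) j)
      (hi a (1 - l) j)) i ↔ (fun s ↦ Y s ω) ∈ A) := by
    filter_upwards [hpath] with ω hω
    simp only [A, Set.mem_ofPred_eq, IsFirst, hω.1, add_le_add_iff_right, add_lt_add_iff_right]
  have h2 : P {ω | (fun s ↦ Y s ω) ∈ A} = P {ω | IsFirst K (fun j ↦ mi (inc (W · ω) l)
      (lo a (1 - l) j) (hi a (1 - l) j)) i} := by
    apply measure_congr
    filter_upwards [hfirst] with ω hω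
    exact propext hω.symm
  rw [h2] at h1
  refine le_trans (measure_mono_ae ?_) (h1.trans ?_)
  · filter_upwards [hfirst, hpath] with ω hω hω' hmem
    refine ⟨hω.1 hmem.1, ?_⟩
    have hmem2 := hmem.2
    rw [hω'.1 i, hω'.2] at hmem2
    convert hmem2 using 2
    simp only [F]
    ring
  · refine mul_le_mul_right (ENNReal.ofReal_le_ofReal ?_) _
    -- compare constants
    have hpi := Real.pi_pos
    have e1 : c * √(2 * Real.pi * (2 * (β - α))) = δ * √Real.pi / √(β - α) := by
      have h3 : 0 < β - α := by linarith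
      rw [show 2 * Real.pi * (2 * (β - α)) = 2 ^ 2 * (Real.pi * (β - α)) by ring,
        Real.sqrt_mul (by positivity), Real.sqrt_sq (by norm_num), Real.sqrt_mul hpi.le, hc]
      have h4 : √(β - α) ≠ 0 := (Real.sqrt_pos.2 h3).ne'
      field_simp
      rw [Real.sq_sqrt h3.le]
    rw [e1]
    have h3 : 0 < β - α := by linarith
    have h4 : 0 < √(β - α) := Real.sqrt_pos.2 h3
    have h5 : √(β - α) ≤ √(6 * a) := Real.sqrt_le_sqrt hlen
    have h6 : 0 < √Real.pi := Real.sqrt_pos.2 hpi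
    rw [div_div_eq_mul_div]
    gcongr

/-- The minimum process `m(l) = min_{0 ≤ t ≤ 1 - l} (W(t + l) - W(t))`. -/
noncomputable def mm (W : ℝ → Ω → ℝ) (l : ℝ) (ω : Ω) : ℝ := mi (inc (W · ω) l) 0 (1 - l)

lemma IsBM.aemeasurable_mi (hW : IsBM W P) (l a b : ℝ) :
    AEMeasurable (fun ω ↦ mi (inc (W · ω) l) a b) P := by
  unfold mi inc
  exact AEMeasurable.iInf fun q ↦ (hW.gauss.aemeasurable _).sub (hW.gauss.aemeasurable _)

/-- Anti-concentration of the increments of the minimum process. -/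
theorem IsBM.anti (hW : IsBM W P) {l s ε : ℝ} (hl : 3 / 4 ≤ l) (hs : 0 < s)
    (hs8 : s ^ 4 ≤ 1 / 16) (hl1 : l + s ^ 4 < 1) (hε : 0 ≤ ε) :
    P {ω | |mm W (l + s ^ 4) ω - mm W l ω| ≤ ε} ≤ ENNReal.ofReal (5 * ε / s ^ 3) := by
  have := hW.isProb
  set a : ℝ := s ^ 2 with ha
  have ha0 : 0 < a := by positivity
  have ha4 : s ^ 4 = a ^ 2 := by rw [ha]; ring
  have ha1 : a ≤ 1 / 4 := by nlinarith
  have hδa : s ^ 4 ≤ a := by rw [ha4]; nlinarith
  set l' := l + s ^ 4 with hl'
  have hll' : l < l' := by have : 0 < s ^ 4 := by positivity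
                           linarith
  have hdiff : l' - l = s ^ 4 := by rw [hl']; ring
  set K := ⌈(1 - l) / a⌉₊ with hK
  have hKle : (K : ℝ) ≤ 1 / a := by
    have h1 : (K : ℝ) < (1 - l) / a + 1 := Nat.ceil_lt_add_one (div_nonneg (by linarith) ha0.le)
    have h2 : (1 - l) / a + 1 ≤ 1 / a := by
      rw [div_add_one ha0.ne', div_le_div_iff_of_pos_right ha0]
      linarith
    linarith
  -- the events
  let E1 : ℕ → Set Ω := fun q ↦ {ω | ((q : ℝ) + 1) * a ≤ 1 - l' ∧
      |mi (inc (W · ω) l) 0 (q * a) - mi (inc (W · ω) l') ((q + 1) * a) (1 - l')| ≤ ε}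
  let E2 : ℕ → Set Ω := fun q ↦ {ω | ((q : ℝ) + 1) * a ≤ 1 - l ∧
      |mi (inc (W · ω) l') 0 (q * a) - mi (inc (W · ω) l) ((q + 1) * a) (1 - l)| ≤ ε}
  let G : ℕ → Set Ω := fun i ↦
    {ω | IsFirst K (fun j ↦ mi (inc (W · ω) l) (lo a (1 - l) j) (hi a (1 - l) j)) i}
  let E3 : ℕ → Set Ω := fun i ↦ {ω | al a i ≤ be a (1 - l) i - (l' - l) ∧
      IsFirst K (fun j ↦ mi (inc (W · ω) l) (lo a (1 - l) j) (hi a (1 - l) j)) i ∧
      |mi (inc (W · ω) l') (al a i) (be a (1 - l) i - (l' - l)) -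
        mi (inc (W · ω) l) (lo a (1 - l) i) (hi a (1 - l) i)| ≤ ε}
  have hincl : P {ω | |mm W l' ω - mm W l ω| ≤ ε} ≤
      P ((⋃ q ∈ Finset.range K, E1 q) ∪ ((⋃ q ∈ Finset.range K, E2 q) ∪
        (⋃ i ∈ Finset.range K, E3 i))) := by
    refine measure_mono_ae ?_
    filter_upwards [hW.cont] with ω hω hmem
    rcases near_far hω ha0 hll' hl1 (by rw [hdiff]; exact hδa) hmem with h | h | h
    · obtain ⟨q, hq, h⟩ := h
      exact Or.inl (Set.mem_biUnion (Finset.mem_coe.2 (Finset.mem_range.2 hq)) h)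
    · obtain ⟨q, hq, h⟩ := h
      exact Or.inr (Or.inl (Set.mem_biUnion (Finset.mem_coe.2 (Finset.mem_range.2 hq)) h))
    · obtain ⟨q, hq, h⟩ := h
      exact Or.inr (Or.inr (Set.mem_biUnion (Finset.mem_coe.2 (Finset.mem_range.2 hq)) h))
  set b1 : ℝ := 2 * ε / √(2 * Real.pi * a) with hb1
  set b3 : ℝ := 2 * ε * √(6 * a) / ((l' - l) * √Real.pi) with hb3
  have hb1' : 0 ≤ b1 := by positivity
  have hb3' : 0 ≤ b3 := by
    rw [hb3, hdiff]; positivity
  have hE1 : ∀ q, P (E1 q) ≤ ENNReal.ofReal b1 := by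
    intro q
    by_cases hq : ((q : ℝ) + 1) * a ≤ 1 - l'
    · have := hW.far_bound (l := l) (l' := l') (u := q * a) (v := (q + 1) * a) (by positivity)
        (by nlinarith) hq (by linarith) (by linarith) ε
      rw [show ((q : ℝ) + 1) * a - q * a = a by ring] at this
      exact le_trans (measure_mono fun ω hω ↦ hω.2) this
    · have : E1 q = ∅ := by ext ω; simp only [E1, Set.mem_ofPred_eq, hq, false_and]; rfl
      rw [this]; simp
  have hE2 : ∀ q, P (E2 q) ≤ ENNReal.ofReal b1 := by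
    intro q
    by_cases hq : ((q : ℝ) + 1) * a ≤ 1 - l
    · have := hW.far_bound (l := l') (l' := l) (u := q * a) (v := (q + 1) * a) (by positivity)
        (by nlinarith) hq (by linarith) (by linarith) ε
      rw [show ((q : ℝ) + 1) * a - q * a = a by ring] at this
      exact le_trans (measure_mono fun ω hω ↦ hω.2) this
    · have : E2 q = ∅ := by ext ω; simp only [E2, Set.mem_ofPred_eq, hq, false_and]; rfl
      rw [this]; simp
  have hE3 : ∀ i, P (E3 i) ≤ P (G i) * ENNReal.ofReal b3 := by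
    intro i
    by_cases hi : al a i ≤ be a (1 - l) i - (l' - l)
    · have := hW.near_bound ha0 (by linarith) hll' hl1 K i hi hε
      exact le_trans (measure_mono fun ω hω ↦ hω.2) this
    · have : E3 i = ∅ := by ext ω; simp only [E3, Set.mem_ofPred_eq, hi, false_and]; rfl
      rw [this]; simp
  have hGsum : ∑ i ∈ Finset.range K, P (G i) ≤ 1 := by
    have hGm : ∀ i, NullMeasurableSet (G i) P := by
      intro i
      have e : G i = (⋂ j ∈ {j | j < K}, {ω | mi (inc (W · ω) l) (lo a (1 - l) i)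
          (hi a (1 - l) i) ≤ mi (inc (W · ω) l) (lo a (1 - l) j) (hi a (1 - l) j)}) ∩
          ⋂ j ∈ {j | j < i}, {ω | mi (inc (W · ω) l) (lo a (1 - l) i)
          (hi a (1 - l) i) < mi (inc (W · ω) l) (lo a (1 - l) j) (hi a (1 - l) j)} := by
        ext ω
        simp [G, IsFirst]
      rw [e]
      apply NullMeasurableSet.inter
      · exact NullMeasurableSet.biInter (Set.to_countable _)
          fun j _ ↦ nullMeasurableSet_le (hW.aemeasurable_mi _ _ _) (hW.aemeasurable_mi _ _ _)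
      · exact NullMeasurableSet.biInter (Set.to_countable _)
          fun j _ ↦ nullMeasurableSet_lt (hW.aemeasurable_mi _ _ _) (hW.aemeasurable_mi _ _ _)
    rw [← measure_biUnion_finset₀ ?_ (fun i _ ↦ hGm i)]
    · exact prob_le_one
    · intro i hiK j hjK hij
      apply Disjoint.aedisjoint
      rw [Set.disjoint_left]
      intro ω h1 h2
      exact hij (isFirst_unique
        (c := fun j ↦ mi (inc (W · ω) l) (lo a (1 - l) j) (hi a (1 - l) j))
        (Finset.mem_range.1 hiK) (Finset.mem_range.1 hjK) h1 h2)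
  have hU1 : P (⋃ q ∈ Finset.range K, E1 q) ≤ K * ENNReal.ofReal b1 := by
    refine (measure_biUnion_finset_le _ _).trans ?_
    refine (Finset.sum_le_sum fun q _ ↦ hE1 q).trans ?_
    simp
  have hU2 : P (⋃ q ∈ Finset.range K, E2 q) ≤ K * ENNReal.ofReal b1 := by
    refine (measure_biUnion_finset_le _ _).trans ?_
    refine (Finset.sum_le_sum fun q _ ↦ hE2 q).trans ?_
    simp
  have hU3 : P (⋃ i ∈ Finset.range K, E3 i) ≤ ENNReal.ofReal b3 := by
    refine (measure_biUnion_finset_le _ _).trans ?_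
    refine (Finset.sum_le_sum fun q _ ↦ hE3 q).trans ?_
    rw [← Finset.sum_mul]
    exact mul_le_of_le_one_left' hGsum
  calc P {ω | |mm W l' ω - mm W l ω| ≤ ε}
      ≤ K * ENNReal.ofReal b1 + (K * ENNReal.ofReal b1 + ENNReal.ofReal b3) :=
        hincl.trans ((measure_union_le _ _).trans (add_le_add hU1
          ((measure_union_le _ _).trans (add_le_add hU2 hU3))))
    _ = ENNReal.ofReal (K * b1 + (K * b1 + b3)) := by
        rw [ENNReal.ofReal_add (by positivity) (by positivity),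
          ENNReal.ofReal_add (by positivity) (by positivity), ENNReal.ofReal_mul (by positivity),
          ENNReal.ofReal_natCast]
    _ ≤ ENNReal.ofReal (5 * ε / s ^ 3) := by
        apply ENNReal.ofReal_le_ofReal
        have hpi3 := Real.pi_gt_three
        have e1 : √(2 * Real.pi * a) = √(2 * Real.pi) * s := by
          rw [Real.sqrt_mul (by positivity), ha, Real.sqrt_sq hs.le]
        have e2 : 2 ≤ √(2 * Real.pi) := by
          apply Real.le_sqrt_of_sq_le; nlinarith
        have hb1'' : b1 ≤ ε / s := by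
          rw [hb1, e1, div_le_div_iff₀ (by positivity) hs]
          have : 0 ≤ ε * s := by positivity
          nlinarith
        have h1 : K * b1 ≤ ε / s ^ 3 := by
          calc K * b1 ≤ (1 / a) * (ε / s) := by gcongr
            _ = ε / s ^ 3 := by rw [ha]; field_simp
        have e3 : √(6 * a) = √6 * s := by
          rw [Real.sqrt_mul (by norm_num), ha, Real.sqrt_sq hs.le]
        have e4 : √6 ≤ (3 / 2) * √Real.pi := by
          rw [show (3 / 2 : ℝ) * √Real.pi = √((3 / 2) ^ 2 * Real.pi) by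
            rw [Real.sqrt_mul (by norm_num), Real.sqrt_sq (by norm_num)]]
          apply Real.sqrt_le_sqrt
          linarith
        have h3 : b3 ≤ 3 * ε / s ^ 3 := by
          rw [hb3, e3, hdiff, div_le_div_iff₀ (by positivity) (by positivity)]
          have : 0 ≤ ε * s ^ 4 := by positivity
          calc 2 * ε * (√6 * s) * s ^ 3 = 2 * (ε * s ^ 4) * √6 := by ring
            _ ≤ 2 * (ε * s ^ 4) * ((3 / 2) * √Real.pi) := by gcongr
            _ = 3 * ε * (s ^ 4 * √Real.pi) := by ring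
        calc K * b1 + (K * b1 + b3) ≤ ε / s ^ 3 + (ε / s ^ 3 + 3 * ε / s ^ 3) := by gcongr
          _ = 5 * ε / s ^ 3 := by ring

end Pool.Agent.Lib.MP_8cdf0c_pr
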