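import Mathlib
import Pool.Agent.Lib.MP_8cdf0c_pr.Paths

open MeasureTheory ProbabilityTheory
open scoped NNReal ENNReal

namespace Pool.Agent.Lib.MP_8cdf0c_pr

/-! ### Counting connected components -/

/-- If `S ⊆ ℝ` has finitely many connected components, then the number of cells of a partition
meeting both `S` and its complement is at most twice the number of components. -/
lemma card_le_two_mul_components {S : Set ℝ} [Finite (ConnectedComponents S)] {x : ℕ → ℝ}
    (hx : Monotone x) (𝒦 : Finset ℕ)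
    (hp : ∀ k ∈ 𝒦, ∃ p ∈ S, p ∈ Set.Icc (x k) (x (k + 1)))
    (hq : ∀ k ∈ 𝒦, ∃ q ∉ S, q ∈ Set.Icc (x k) (x (k + 1))) :
    𝒦.card ≤ 2 * Nat.card (ConnectedComponents S) := by
  classical
  have : Fintype (ConnectedComponents S) := Fintype.ofFinite _
  choose! p hpS hpI using hp
  choose! q hqS hqI using hq
  let f : {k // k ∈ 𝒦} → ConnectedComponents S := fun k ↦ ((⟨p k, hpS k k.2⟩ : S) : ConnectedComponents S)
  have h1 : 𝒦.attach.card ≤ 2 * (𝒦.attach.image f).card := by
    apply Finset.card_le_mul_card_image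
    intro C _
    by_contra hcard
    push Not at hcard
    set T := 𝒦.attach.filter (fun k ↦ f k = C) with hT
    have hne : T.Nonempty := Finset.card_pos.1 (by omega)
    set m := T.min' hne with hm
    have hne2 : (T.erase m).Nonempty := by
      apply Finset.card_pos.1
      rw [Finset.card_erase_of_mem (Finset.min'_mem _ _)]
      omega
    set M := (T.erase m).max' hne2 with hM
    have hMmem : M ∈ T.erase m := Finset.max'_mem _ _
    have hne3 : ((T.erase m).erase M).Nonempty := by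
      apply Finset.card_pos.1
      rw [Finset.card_erase_of_mem hMmem, Finset.card_erase_of_mem (Finset.min'_mem _ _)]
      omega
    obtain ⟨k, hk⟩ := hne3
    have hkM : k ≠ M := (Finset.mem_erase.1 hk).1
    have hk2 : k ∈ T.erase m := (Finset.mem_erase.1 hk).2
    have hkm : k ≠ m := (Finset.mem_erase.1 hk2).1
    have hkT : k ∈ T := (Finset.mem_erase.1 hk2).2
    have hlt1 : m < k := lt_of_le_of_ne (Finset.min'_le _ _ hkT) (Ne.symm hkm)
    have hlt2 : k < M := lt_of_le_of_ne (Finset.le_max' _ _ hk2) hkM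
    have hfm : f m = C := (Finset.mem_filter.1 (Finset.min'_mem T hne)).2
    have hfM : f M = C := (Finset.mem_filter.1 (Finset.mem_erase.1 hMmem).2).2
    have heq : f m = f M := hfm.trans hfM.symm
    have hconn : (⟨p M, hpS M M.2⟩ : S) ∈ connectedComponent (⟨p m, hpS m m.2⟩ : S) := by
      have := ConnectedComponents.coe_eq_coe.1 heq
      rw [this]; exact mem_connectedComponent
    have hpre : IsPreconnected ((↑) '' connectedComponent (⟨p m, hpS m m.2⟩ : S) : Set ℝ) :=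
      isPreconnected_connectedComponent.image _ continuous_subtype_val.continuousOn
    have hord := hpre.ordConnected
    have hk1 : p m ≤ q k := by
      refine (hpI m m.2).2.trans (le_trans (hx ?_) (hqI k k.2).1)
      exact Nat.succ_le_of_lt hlt1
    have hk3 : q k ≤ p M := by
      refine (hqI k k.2).2.trans (le_trans (hx ?_) (hpI M M.2).1)
      exact Nat.succ_le_of_lt hlt2
    have hmem := hord.out ⟨_, mem_connectedComponent, rfl⟩ ⟨_, hconn, rfl⟩ ⟨hk1, hk3⟩
    obtain ⟨y, _, hy⟩ := hmem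
    exact hqS k k.2 (hy ▸ y.2)
  rw [Finset.card_attach] at h1
  refine h1.trans ?_
  gcongr
  rw [Nat.card_eq_fintype_card]
  exact Finset.card_le_univ _

/-! ### The span set of a path and the minimum process -/

/-- The span set on `[0,1]` of a path indexed by the reals. -/
def spanR (w : ℝ → ℝ) : Set ℝ :=
  {x | ∃ s t : ℝ, 0 ≤ s ∧ s ≤ t ∧ t ≤ 1 ∧ w s = w t ∧ x = t - s}

lemma notMem_spanR {w : ℝ → ℝ} (hw : Continuous w) {l : ℝ} (h : 0 < mi (inc w l) 0 (1 - l)) :
    l ∉ spanR w := by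
  rintro ⟨s, t, hs, hst, ht, hwst, rfl⟩
  have h1 : s ∈ Set.Icc (0 : ℝ) (1 - (t - s)) := ⟨hs, by linarith⟩
  have h2 := mi_le (continuous_inc hw (t - s)) h1
  have h3 : inc w (t - s) s = 0 := by
    unfold inc
    rw [show s + (t - s) = t by ring, hwst]; ring
  linarith

lemma exists_mem_spanR {w : ℝ → ℝ} (hw : Continuous w) {l l' : ℝ} (hl : l ∈ Set.Icc (0 : ℝ) 1)
    (hl' : l' ∈ Set.Icc (0 : ℝ) 1) (h : mi (inc w l) 0 (1 - l) ≤ 0)
    (h' : 0 < mi (inc w l') 0 (1 - l')) :
    ∃ p ∈ spanR w, p ∈ Set.uIcc l l' := by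
  have hX := continuous_inc hw l
  obtain ⟨t, ht, htm⟩ := exists_mi hX (show (0 : ℝ) ≤ 1 - l by linarith [hl.2])
  by_cases hex : ∃ t' ∈ Set.Icc 0 (1 - l), 0 ≤ inc w l t'
  · obtain ⟨t', ht', hpos⟩ := hex
    have h0 : (0 : ℝ) ∈ Set.uIcc (inc w l t) (inc w l t') := by
      rw [Set.mem_uIcc]; left; exact ⟨htm ▸ h, hpos⟩
    obtain ⟨r, hr, hr0⟩ := intermediate_value_uIcc (hX.continuousOn (s := Set.uIcc t t')) h0
    have hr' : r ∈ Set.Icc 0 (1 - l) := Set.ordConnected_Icc.uIcc_subset ht ht' hr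
    refine ⟨l, ⟨r, r + l, hr'.1, by linarith [hl.1], by linarith [hr'.2], ?_, by ring⟩,
      Set.left_mem_uIcc⟩
    unfold inc at hr0
    linarith
  · push Not at hex
    have h1 : inc w l 0 < 0 := hex 0 ⟨le_rfl, by linarith [hl.2]⟩
    have h2 : 0 < inc w l' 0 :=
      h'.trans_le (mi_le (continuous_inc hw l') ⟨le_rfl, by linarith [hl'.2]⟩)
    unfold inc at h1 h2
    rw [zero_add] at h1 h2
    have h0 : w 0 ∈ Set.uIcc (w l) (w l') := by
      rw [Set.mem_uIcc]; left; constructor <;> linarith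
    obtain ⟨r, hr, hr0⟩ := intermediate_value_uIcc (hw.continuousOn (s := Set.uIcc l l')) h0
    have hr' : r ∈ Set.Icc (0 : ℝ) 1 := Set.ordConnected_Icc.uIcc_subset hl hl' hr
    exact ⟨r, ⟨0, r, le_rfl, hr'.1, hr'.2, hr0.symm, by ring⟩, hr⟩

/-- Sign change of the minimum process between two lengths. -/
def SignChange (x y : ℝ) : Prop := (x ≤ 0 ∧ 0 < y) ∨ (y ≤ 0 ∧ 0 < x)

lemma signChange_spec {w : ℝ → ℝ} (hw : Continuous w) {l l' : ℝ} (hll' : l ≤ l')
    (hl : l ∈ Set.Icc (0 : ℝ) 1)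
    (hl' : l' ∈ Set.Icc (0 : ℝ) 1)
    (h : SignChange (mi (inc w l) 0 (1 - l)) (mi (inc w l') 0 (1 - l'))) :
    (∃ p ∈ spanR w, p ∈ Set.Icc l l') ∧ ∃ q ∉ spanR w, q ∈ Set.Icc l l' := by
  rcases h with ⟨h1, h2⟩ | ⟨h1, h2⟩
  · constructor
    · obtain ⟨p, hp, hpI⟩ := exists_mem_spanR hw hl hl' h1 h2
      exact ⟨p, hp, by rwa [Set.uIcc_of_le hll'] at hpI⟩
    · exact ⟨l', notMem_spanR hw h2, hll', le_rfl⟩
  · constructor
    · obtain ⟨p, hp, hpI⟩ := exists_mem_spanR hw hl' hl h1 h2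
      exact ⟨p, hp, by rwa [Set.uIcc_comm, Set.uIcc_of_le hll'] at hpI⟩
    · exact ⟨l, notMem_spanR hw h2, le_rfl, hll'⟩

end Pool.Agent.Lib.MP_8cdf0c_pr
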