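import Mathlib
import Pool.Agent.Lib.MP_8cdf0c_pr.Anti
import Pool.Agent.Lib.MP_8cdf0c_pr.Topo

open MeasureTheory ProbabilityTheory
open scoped NNReal ENNReal

namespace Pool.Agent.Lib.MP_8cdf0c_pr

variable {Ω : Type*} {mΩ : MeasurableSpace Ω} {P : Measure Ω} {W : ℝ → Ω → ℝ}

/-- The independent Gaussian level shift. -/
noncomputable def GG (W : ℝ → Ω → ℝ) : Ω → ℝ := W (3 / 4) - W (1 / 4)

/-- Decomposition of two values of the minimum process into a common Gaussian shift and an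
independent part. -/
lemma IsBM.levels (hW : IsBM W P) {l l' : ℝ} (hl : 3 / 4 ≤ l) (hl1 : l ≤ 1) (hl' : 3 / 4 ≤ l')
    (hl'1 : l' ≤ 1) :
    ∃ (Y : Ω → (ℚ ⊕ ℚ → ℝ)) (F F' : (ℚ ⊕ ℚ → ℝ) → ℝ), AEMeasurable Y P ∧ Measurable F ∧
      Measurable F' ∧ IndepFun Y (GG W) P ∧
      (∀ᵐ ω ∂P, mm W l ω = F (Y ω) + GG W ω) ∧ (∀ᵐ ω ∂P, mm W l' ω = F' (Y ω) + GG W ω) := by
  have := hW.isProb
  have hξ : GG W ∈ spanW W := sub_mem_spanW _ _
  let Y : ℚ ⊕ ℚ → Ω → ℝ := Sum.elim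
    (fun q ↦ (W (clamp 0 (1 - l) q + l) - W (clamp 0 (1 - l) q)) - GG W)
    (fun q ↦ (W (clamp 0 (1 - l') q + l') - W (clamp 0 (1 - l') q)) - GG W)
  have hYmem : ∀ s, Y s ∈ spanW W := by
    rintro (q | q)
    · exact Submodule.sub_mem _ (sub_mem_spanW _ _) hξ
    · exact Submodule.sub_mem _ (sub_mem_spanW _ _) hξ
  have hcov1 : ∀ {l t : ℝ}, 3 / 4 ≤ l → t ∈ Set.Icc 0 (1 - l) →
      cov[(W (t + l) - W t) - GG W, GG W; P] = 0 := by
    intro l t hl ht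
    have h0 := ht.1
    have h1 := ht.2
    rw [covariance_sub_left (hW.memLp (sub_mem_spanW _ _)) (hW.memLp hξ) (hW.memLp hξ)]
    unfold GG
    rw [hW.cov4 (by linarith) h0 (by norm_num) (by norm_num),
      hW.cov4 (by norm_num) (by norm_num) (by norm_num) (by norm_num),
      min_eq_right (show 3 / 4 ≤ t + l by linarith), min_eq_right (show 1 / 4 ≤ t + l by linarith),
      min_eq_left (show t ≤ 3 / 4 by linarith), min_eq_left (show t ≤ 1 / 4 by linarith), min_self,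
      min_self, min_eq_right (show (1 / 4 : ℝ) ≤ 3 / 4 by norm_num),
      min_eq_left (show (1 / 4 : ℝ) ≤ 3 / 4 by norm_num)]
    ring
  have hcov : ∀ s, cov[Y s, GG W; P] = 0 := by
    rintro (q | q)
    · exact hcov1 hl (clamp_mem (by linarith) _)
    · exact hcov1 hl' (clamp_mem (by linarith) _)
  have hYm : AEMeasurable (fun ω s ↦ Y s ω) P :=
    aemeasurable_pi_lambda _ fun s ↦ aemeasurable_of_mem_span hW.gauss (hYmem s)
  refine ⟨fun ω s ↦ Y s ω, fun y ↦ ⨅ q : ℚ, y (Sum.inl q), fun y ↦ ⨅ q : ℚ, y (Sum.inr q), hYm,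
    measurable_ciInf_eval _, measurable_ciInf_eval _,
    indepFun_of_mem_span hW.gauss hYmem hξ hcov, ?_, ?_⟩
  · filter_upwards [hW.cont] with ω hω
    have hb := bddBelow_clamp (continuous_inc hω l) (show (0 : ℝ) ≤ 1 - l by linarith)
    have := ciInf_add_const
        (f := fun q : ℚ ↦ inc (W · ω) l (clamp 0 (1 - l) q))
        (g := fun q : ℚ ↦ Y (Sum.inl q) ω) (c := - GG W ω) hb (fun q ↦ by
          simp only [Y, inc, Sum.elim_inl, Pi.sub_apply]; ring)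
    change mm W l ω = (⨅ q : ℚ, Y (Sum.inl q) ω) + GG W ω
    rw [this]
    unfold mm mi
    ring
  · filter_upwards [hW.cont] with ω hω
    have hb := bddBelow_clamp (continuous_inc hω l') (show (0 : ℝ) ≤ 1 - l' by linarith)
    have := ciInf_add_const
        (f := fun q : ℚ ↦ inc (W · ω) l' (clamp 0 (1 - l') q))
        (g := fun q : ℚ ↦ Y (Sum.inr q) ω) (c := - GG W ω) hb (fun q ↦ by
          simp only [Y, inc, Sum.elim_inr, Pi.sub_apply]; ring)
    change mm W l' ω = (⨅ q : ℚ, Y (Sum.inr q) ω) + GG W ω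
    rw [this]
    unfold mm mi
    ring

lemma IsBM.GG_law (hW : IsBM W P) : P.map (GG W) = gaussianReal 0 (1 / 2 : ℝ).toNNReal := by
  have hcov : cov[GG W, GG W; P] = 1 / 2 := by
    unfold GG
    rw [hW.cov4 (by norm_num) (by norm_num) (by norm_num) (by norm_num), min_self, min_self,
      min_eq_right (show (1 / 4 : ℝ) ≤ 3 / 4 by norm_num),
      min_eq_left (show (1 / 4 : ℝ) ≤ 3 / 4 by norm_num)]
    norm_num
  exact map_of_mem_span hW.gauss hW.mean (sub_mem_spanW _ _) hcov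

lemma IsBM.GG_aemeasurable (hW : IsBM W P) : AEMeasurable (GG W) P :=
  aemeasurable_of_mem_span hW.gauss (sub_mem_spanW _ _)

lemma half_ne : (1 / 2 : ℝ).toNNReal ≠ 0 := by
  rw [Ne, Real.toNNReal_eq_zero]; norm_num

lemma half_coe : ((1 / 2 : ℝ).toNNReal : ℝ) = 1 / 2 := Real.coe_toNNReal _ (by norm_num)

/-- Upper bound for the probability that the minimum process is near zero at two lengths. -/
lemma IsBM.upper (hW : IsBM W P) {l l' : ℝ} (hl : 3 / 4 ≤ l) (hl1 : l ≤ 1) (hl' : 3 / 4 ≤ l')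
    (hl'1 : l' ≤ 1) {ε : ℝ} (hε : 0 ≤ ε) :
    P {ω | |mm W l ω| ≤ ε ∧ |mm W l' ω| ≤ ε} ≤
      P {ω | |mm W l' ω - mm W l ω| ≤ 2 * ε} * ENNReal.ofReal (2 * ε) := by
  have := hW.isProb
  obtain ⟨Y, F, F', hY, hF, hF', hind, h1, h2⟩ := hW.levels hl hl1 hl' hl'1
  let A : Set (ℚ ⊕ ℚ → ℝ) := {y | |F' y - F y| ≤ 2 * ε}
  have hA : MeasurableSet A := measurableSet_le (by fun_prop) measurable_const
  have key := smoothing hY hW.GG_aemeasurable hind half_ne hW.GG_law hA hF one_pos ε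
  rw [half_coe] at key
  have e1 : P {ω | Y ω ∈ A} = P {ω | |mm W l' ω - mm W l ω| ≤ 2 * ε} := by
    apply measure_congr
    filter_upwards [h1, h2] with ω h1 h2
    apply propext
    change |F' (Y ω) - F (Y ω)| ≤ 2 * ε ↔ |mm W l' ω - mm W l ω| ≤ 2 * ε
    rw [h1, h2]
    ring_nf
  rw [e1] at key
  refine le_trans (measure_mono_ae ?_) (key.trans ?_)
  · filter_upwards [h1, h2] with ω h1 h2 hmem
    have hm1 : |mm W l ω| ≤ ε := hmem.1
    have hm2 : |mm W l' ω| ≤ ε := hmem.2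
    refine ⟨?_, ?_⟩
    · change |F' (Y ω) - F (Y ω)| ≤ 2 * ε
      have : F' (Y ω) - F (Y ω) = mm W l' ω - mm W l ω := by rw [h1, h2]; ring
      rw [this]
      calc |mm W l' ω - mm W l ω| ≤ |mm W l' ω| + |mm W l ω| := abs_sub _ _
        _ ≤ 2 * ε := by linarith
    · rw [one_mul, ← h1]; exact hm1
  · refine mul_le_mul_right (ENNReal.ofReal_le_ofReal ?_) _
    rw [one_mul, show 2 * Real.pi * (1 / 2) = Real.pi by ring]
    have : 1 ≤ √Real.pi := by
      rw [Real.one_le_sqrt]; linarith [Real.pi_gt_three]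
    exact div_le_self (by positivity) this

/-- Lower bound for the probability of a sign change near zero. -/
lemma IsBM.lower (hW : IsBM W P) {l l' : ℝ} (hl : 3 / 4 ≤ l) (hl1 : l ≤ 1) (hl' : 3 / 4 ≤ l')
    (hl'1 : l' ≤ 1) {ε R : ℝ} (hε1 : ε ≤ 1) {p : ℝ≥0∞}
    (hp : p ≤ P {ω | |mm W l ω - GG W ω| ≤ R ∧ ε ≤ |mm W l' ω - mm W l ω|}) :
    p * ENNReal.ofReal (ε * ((√Real.pi)⁻¹ * Real.exp (-(R + 1) ^ 2))) ≤
      P {ω | |mm W l ω| ≤ ε ∧ SignChange (mm W l ω) (mm W l' ω)} := by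
  have := hW.isProb
  obtain ⟨Y, F, F', hY, hF, hF', hind, h1, h2⟩ := hW.levels hl hl1 hl' hl'1
  let A : Set (ℚ ⊕ ℚ → ℝ) := {y | |F y| ≤ R ∧ ε ≤ |F' y - F y|}
  have hA : MeasurableSet A := by
    have a1 : MeasurableSet {y | |F y| ≤ R} := measurableSet_le (by fun_prop) measurable_const
    have a2 : MeasurableSet {y | ε ≤ |F' y - F y|} :=
      measurableSet_le measurable_const (by fun_prop)
    exact a1.inter a2
  let E : Set ((ℚ ⊕ ℚ → ℝ) × ℝ) := {z | |F z.1 + z.2| ≤ ε ∧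
    ((F z.1 + z.2 ≤ 0 ∧ 0 < F' z.1 + z.2) ∨ (F' z.1 + z.2 ≤ 0 ∧ 0 < F z.1 + z.2))}
  have hE : MeasurableSet E := by
    have a1 : MeasurableSet {z : (ℚ ⊕ ℚ → ℝ) × ℝ | |F z.1 + z.2| ≤ ε} :=
      measurableSet_le (by fun_prop) measurable_const
    have a2 : MeasurableSet {z : (ℚ ⊕ ℚ → ℝ) × ℝ | F z.1 + z.2 ≤ 0} :=
      measurableSet_le (by fun_prop) measurable_const
    have a3 : MeasurableSet {z : (ℚ ⊕ ℚ → ℝ) × ℝ | 0 < F' z.1 + z.2} :=
      measurableSet_lt measurable_const (by fun_prop)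
    have a4 : MeasurableSet {z : (ℚ ⊕ ℚ → ℝ) × ℝ | F' z.1 + z.2 ≤ 0} :=
      measurableSet_le (by fun_prop) measurable_const
    have a5 : MeasurableSet {z : (ℚ ⊕ ℚ → ℝ) × ℝ | 0 < F z.1 + z.2} :=
      measurableSet_lt measurable_const (by fun_prop)
    exact a1.inter ((a2.inter a3).union (a4.inter a5))
  have hκ : ∀ y ∈ A, ENNReal.ofReal (ε * ((√Real.pi)⁻¹ * Real.exp (-(R + 1) ^ 2))) ≤
      P.map (GG W) (Prod.mk y ⁻¹' E) := by
    rintro y ⟨hy1, hy2⟩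
    rw [hW.GG_law]
    have hy1' := abs_le.1 hy1
    have gen : ∀ a b : ℝ, -(R + 1) ≤ a → b ≤ R + 1 → b - a = ε → Set.Ioc a b ⊆ Prod.mk y ⁻¹' E →
        ENNReal.ofReal (ε * ((√Real.pi)⁻¹ * Real.exp (-(R + 1) ^ 2))) ≤
        gaussianReal 0 (1 / 2 : ℝ).toNNReal (Prod.mk y ⁻¹' E) := by
      intro a b ha hb hab hsub
      refine le_trans ?_ (measure_mono hsub)
      have := gaussianReal_Ioc_ge half_ne ha hb
      rw [hab, half_coe] at this
      refine le_trans (le_of_eq ?_) this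
      rw [show 2 * Real.pi * (1 / 2) = Real.pi by ring,
        show 2 * (1 / 2 : ℝ) = 1 by norm_num, div_one]
    rcases le_abs.1 hy2 with h | h
    · -- `F' y ≥ F y + ε`
      apply gen (-F y - ε) (-F y) (by linarith) (by linarith) (by ring)
      rintro g ⟨hg1, hg2⟩
      refine ⟨?_, Or.inl ⟨?_, ?_⟩⟩
      · change |F y + g| ≤ ε
        rw [abs_le]; constructor <;> linarith
      · change F y + g ≤ 0
        linarith
      · change 0 < F' y + g
        linarith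
    · apply gen (-F y) (-F y + ε) (by linarith) (by linarith) (by ring)
      rintro g ⟨hg1, hg2⟩
      refine ⟨?_, Or.inr ⟨?_, ?_⟩⟩
      · change |F y + g| ≤ ε
        rw [abs_le]; constructor <;> linarith
      · change F' y + g ≤ 0
        linarith
      · change 0 < F y + g
        linarith
  have key := smoothing_lower hY hW.GG_aemeasurable hind hA hE hκ
  have e1 : P {ω | Y ω ∈ A} = P {ω | |mm W l ω - GG W ω| ≤ R ∧ ε ≤ |mm W l' ω - mm W l ω|} := by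
    apply measure_congr
    filter_upwards [h1, h2] with ω h1 h2
    apply propext
    change (|F (Y ω)| ≤ R ∧ ε ≤ |F' (Y ω) - F (Y ω)|) ↔
      (|mm W l ω - GG W ω| ≤ R ∧ ε ≤ |mm W l' ω - mm W l ω|)
    rw [h1, h2]
    ring_nf
  have e2 : P {ω | (Y ω, GG W ω) ∈ E} =
      P {ω | |mm W l ω| ≤ ε ∧ SignChange (mm W l ω) (mm W l' ω)} := by
    apply measure_congr
    filter_upwards [h1, h2] with ω h1 h2
    apply propext
    change (|F (Y ω) + GG W ω| ≤ ε ∧ ((F (Y ω) + GG W ω ≤ 0 ∧ 0 < F' (Y ω) + GG W ω) ∨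
      (F' (Y ω) + GG W ω ≤ 0 ∧ 0 < F (Y ω) + GG W ω))) ↔
      (|mm W l ω| ≤ ε ∧ SignChange (mm W l ω) (mm W l' ω))
    rw [← h1, ← h2]; rfl
  rw [e1, e2] at key
  exact le_trans (mul_le_mul_left hp _) key

/-- Tightness of the shifted minimum process. -/
lemma IsBM.tight (hW : IsBM W P) : ∃ R : ℝ, 0 < R ∧ ∀ l : ℝ, 3 / 4 ≤ l → l ≤ 1 →
    3 / 4 ≤ P {ω | |mm W l ω - GG W ω| ≤ R} := by
  have := hW.isProb
  let D : ℕ → Set Ω := fun n ↦ {ω | Continuous (fun t ↦ W t ω) ∧ ∀ t ∈ Set.Icc (0 : ℝ) 1, |W t ω| ≤ n}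
  have hmono : Monotone D := by
    intro m n hmn ω hω
    exact ⟨hω.1, fun t ht ↦ (hω.2 t ht).trans (by exact_mod_cast hmn)⟩
  have hun : P (⋃ n, D n) = 1 := by
    rw [← measure_univ (μ := P)]
    apply measure_congr
    filter_upwards [hW.cont] with ω hω
    apply propext
    refine iff_of_true ?_ trivial
    obtain ⟨C, hC⟩ := (isCompact_Icc (a := (0 : ℝ)) (b := 1)).exists_bound_of_continuousOn
      hω.continuousOn
    obtain ⟨n, hn⟩ := exists_nat_ge C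
    refine Set.mem_iUnion.2 ⟨n, hω, fun t ht ↦ ?_⟩
    exact ((Real.norm_eq_abs _) ▸ hC t ht).trans hn
  rw [hmono.measure_iUnion] at hun
  have hlt : (3 / 4 : ℝ≥0∞) < ⨆ n, P (D n) := by
    rw [hun]
    exact (ENNReal.div_lt_iff (by norm_num) (by norm_num)).2 (by norm_num)
  obtain ⟨n, hn⟩ := lt_iSup_iff.1 hlt
  refine ⟨4 * n + 1, by positivity, fun l hl hl1 ↦ hn.le.trans (measure_mono ?_)⟩
  rintro ω ⟨hc, hb⟩
  obtain ⟨t, ht, htm⟩ := exists_mi (continuous_inc hc l) (show (0 : ℝ) ≤ 1 - l by linarith)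
  change |mi (inc (W · ω) l) 0 (1 - l) - GG W ω| ≤ 4 * n + 1
  rw [htm]
  have b1 := abs_le.1 (hb (t + l) ⟨by linarith [ht.1], by linarith [ht.2]⟩)
  have b2 := abs_le.1 (hb t ⟨by linarith [ht.1], by linarith [ht.2]⟩)
  have b3 := abs_le.1 (hb (3 / 4) ⟨by norm_num, by norm_num⟩)
  have b4 := abs_le.1 (hb (1 / 4) ⟨by norm_num, by norm_num⟩)
  change |(W (t + l) ω - W t ω) - (W (3 / 4) ω - W (1 / 4) ω)| ≤ 4 * n + 1
  rw [abs_le]
  constructor <;> linarith [b1.1, b1.2, b2.1, b2.2, b3.1, b3.2, b4.1, b4.2]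

end Pool.Agent.Lib.MP_8cdf0c_pr
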