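import Mathlib
import Pool.Agent.Lib.MP_8cdf0c_pr.Levels

open MeasureTheory ProbabilityTheory
open scoped NNReal ENNReal

namespace Pool.Agent.Lib.MP_8cdf0c_pr

variable {Ω : Type*} {mΩ : MeasurableSpace Ω} {P : Measure Ω} {W : ℝ → Ω → ℝ}

/-- A Paley-Zygmund type inequality for the number of events that occur. -/
lemma pz [IsProbabilityMeasure P] (n : ℕ) (A : ℕ → Set Ω) (hA : ∀ k, MeasurableSet (A k))
    {x c1 c2 : ℝ} (hx : 0 < x) (hc1 : 0 < c1) (hc2 : 0 < c2)
    (h1 : c1 * x ≤ ∑ k ∈ Finset.range n, P.real (A k))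
    (h2 : ∑ j ∈ Finset.range n, ∑ k ∈ Finset.range n, P.real (A j ∩ A k) ≤ c2 * x ^ 2) :
    c1 ^ 2 / (2 * c2) ≤ P.real {ω | c1 * x / 4 ≤
      ∑ k ∈ Finset.range n, (A k).indicator (fun _ ↦ (1 : ℝ)) ω} := by
  set N : Ω → ℝ := fun ω ↦ ∑ k ∈ Finset.range n, (A k).indicator (fun _ ↦ (1 : ℝ)) ω with hN
  set T : Set Ω := {ω | c1 * x / 4 ≤ N ω} with hT
  have hNm : Measurable N := by
    apply Finset.measurable_fun_sum
    intro k _
    exact measurable_const.indicator (hA k)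
  have hTm : MeasurableSet T := measurableSet_le measurable_const hNm
  set lam : ℝ := c1 / (2 * c2 * x) with hlam
  have hlam0 : 0 < lam := by positivity
  have hpt : ∀ ω, N ω ≤ c1 * x / 4 + lam / 2 * (N ω) ^ 2 +
      1 / (2 * lam) * T.indicator (fun _ ↦ (1 : ℝ)) ω := by
    intro ω
    by_cases hω : ω ∈ T
    · rw [Set.indicator_of_mem hω]
      have : N ω ≤ lam / 2 * (N ω) ^ 2 + 1 / (2 * lam) * 1 := by
        have h3 : 0 ≤ (lam * N ω - 1) ^ 2 := sq_nonneg _
        have h4 : lam / 2 * (N ω) ^ 2 + 1 / (2 * lam) * 1 - N ω =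
            (lam * N ω - 1) ^ 2 / (2 * lam) := by
          field_simp; ring
        have h5 : 0 ≤ (lam * N ω - 1) ^ 2 / (2 * lam) := by positivity
        linarith
      have h6 : 0 < c1 * x / 4 := by positivity
      linarith
    · rw [Set.indicator_of_notMem hω]
      have h3 : N ω < c1 * x / 4 := not_le.1 hω
      have : 0 ≤ lam / 2 * (N ω) ^ 2 := by positivity
      linarith
  have hind : ∀ S : Set Ω, MeasurableSet S →
      Integrable (fun ω ↦ S.indicator (fun _ ↦ (1 : ℝ)) ω) P :=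
    fun S hS ↦ (integrable_const (1 : ℝ)).indicator hS
  have hindint : ∀ S : Set Ω, MeasurableSet S →
      ∫ ω, S.indicator (fun _ ↦ (1 : ℝ)) ω ∂P = P.real S := by
    intro S hS
    rw [integral_indicator hS]
    simp
  have hNint : Integrable N P := integrable_finsetSum _ fun k _ ↦ hind _ (hA k)
  have hNsum : ∫ ω, N ω ∂P = ∑ k ∈ Finset.range n, P.real (A k) := by
    rw [hN, integral_finsetSum _ fun k _ ↦ hind _ (hA k)]
    exact Finset.sum_congr rfl fun k _ ↦ hindint _ (hA k)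
  have hN2 : (fun ω ↦ (N ω) ^ 2) = fun ω ↦ ∑ j ∈ Finset.range n, ∑ k ∈ Finset.range n,
      (A j ∩ A k).indicator (fun _ ↦ (1 : ℝ)) ω := by
    funext ω
    rw [sq, hN, Finset.sum_mul_sum]
    refine Finset.sum_congr rfl fun j _ ↦ Finset.sum_congr rfl fun k _ ↦ ?_
    by_cases hj : ω ∈ A j <;> by_cases hk : ω ∈ A k <;> simp [hj, hk]
  have hN2int : Integrable (fun ω ↦ (N ω) ^ 2) P := by
    rw [hN2]
    exact integrable_finsetSum _ fun j _ ↦ integrable_finsetSum _ fun k _ ↦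
      hind _ ((hA j).inter (hA k))
  have hN2sum : ∫ ω, (N ω) ^ 2 ∂P =
      ∑ j ∈ Finset.range n, ∑ k ∈ Finset.range n, P.real (A j ∩ A k) := by
    rw [hN2, integral_finsetSum _ fun j _ ↦ integrable_finsetSum _ fun k _ ↦
      hind _ ((hA j).inter (hA k))]
    refine Finset.sum_congr rfl fun j _ ↦ ?_
    rw [integral_finsetSum _ fun k _ ↦ hind _ ((hA j).inter (hA k))]
    exact Finset.sum_congr rfl fun k _ ↦ hindint _ ((hA j).inter (hA k))
  have hint : ∫ ω, N ω ∂P ≤ c1 * x / 4 + lam / 2 * ∫ ω, (N ω) ^ 2 ∂P +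
      1 / (2 * lam) * P.real T := by
    calc ∫ ω, N ω ∂P ≤ ∫ ω, (c1 * x / 4 + lam / 2 * (N ω) ^ 2 +
          1 / (2 * lam) * T.indicator (fun _ ↦ (1 : ℝ)) ω) ∂P := by
          refine integral_mono hNint ?_ hpt
          exact ((integrable_const _).add (hN2int.const_mul _)).add ((hind _ hTm).const_mul _)
      _ = _ := by
          have i1 : Integrable (fun ω ↦ c1 * x / 4 + lam / 2 * (N ω) ^ 2) P :=
            (integrable_const _).add (hN2int.const_mul _)
          rw [integral_add i1 ((hind _ hTm).const_mul _),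
            integral_add (integrable_const _) (hN2int.const_mul _),
            integral_const_mul, integral_const_mul, hindint _ hTm]
          simp
  rw [hNsum, hN2sum] at hint
  have h3 : lam / 2 * ∑ j ∈ Finset.range n, ∑ k ∈ Finset.range n, P.real (A j ∩ A k) ≤
      c1 * x / 4 := by
    calc _ ≤ lam / 2 * (c2 * x ^ 2) := by gcongr
      _ = c1 * x / 4 := by rw [hlam]; field_simp; ring
  have h4 : c1 * x / 2 ≤ 1 / (2 * lam) * P.real T := by linarith
  have h5 : 1 / (2 * lam) = c2 * x / c1 := by rw [hlam]; field_simp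
  rw [h5] at h4
  rw [div_le_iff₀ (by positivity)]
  have h6 : c1 * x / 2 * c1 ≤ c2 * x * P.real T := by
    have := mul_le_mul_of_nonneg_right h4 hc1.le
    rwa [show c2 * x / c1 * P.real T * c1 = c2 * x * P.real T by field_simp] at this
  have h7 : x * (c1 ^ 2) ≤ x * (P.real T * (2 * c2)) := by nlinarith
  exact le_of_mul_le_mul_left h7 hx

/-! ### The sum of `r^{-3/4}` -/

/-- The fourth root. -/
noncomputable def rt (r : ℕ) : ℝ := (r : ℝ) ^ (1 / 4 : ℝ)

lemma rt_pow (r : ℕ) : rt r ^ 4 = r := by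
  unfold rt
  rw [← Real.rpow_natCast, ← Real.rpow_mul (by positivity)]
  norm_num

lemma rt_nonneg (r : ℕ) : 0 ≤ rt r := by unfold rt; positivity

lemma rt_pos {r : ℕ} (hr : 0 < r) : 0 < rt r := by unfold rt; positivity

lemma rt_mono {r s : ℕ} (h : r ≤ s) : rt r ≤ rt s := by
  unfold rt
  gcongr

lemma sum_rt (m : ℕ) : ∑ r ∈ Finset.range m, 1 / rt (r + 1) ^ 3 ≤ 4 * rt m := by
  induction m with
  | zero => simp [rt_nonneg]
  | succ m ih =>
    rw [Finset.sum_range_succ]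
    have hb : 0 < rt (m + 1) := rt_pos (Nat.succ_pos m)
    have ha : 0 ≤ rt m := rt_nonneg m
    have hab : rt m ≤ rt (m + 1) := rt_mono (Nat.le_succ m)
    have h1 : rt (m + 1) ^ 4 - rt m ^ 4 = 1 := by
      rw [rt_pow, rt_pow]; push_cast; ring
    have h2 : 1 / rt (m + 1) ^ 3 ≤ 4 * (rt (m + 1) - rt m) := by
      rw [div_le_iff₀ (by positivity)]
      have h3 : rt (m + 1) ^ 4 - rt m ^ 4 = (rt (m + 1) - rt m) *
          (rt (m + 1) ^ 3 + rt (m + 1) ^ 2 * rt m + rt (m + 1) * rt m ^ 2 + rt m ^ 3) := by ring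
      have h4 : rt (m + 1) ^ 3 + rt (m + 1) ^ 2 * rt m + rt (m + 1) * rt m ^ 2 + rt m ^ 3 ≤
          4 * rt (m + 1) ^ 3 := by
        have a1 : rt (m + 1) ^ 2 * rt m ≤ rt (m + 1) ^ 2 * rt (m + 1) := by gcongr
        have a2 : rt (m + 1) * rt m ^ 2 ≤ rt (m + 1) * rt (m + 1) ^ 2 := by gcongr
        have a3 : rt m ^ 3 ≤ rt (m + 1) ^ 3 := by gcongr
        nlinarith
      have h5 : 0 ≤ rt (m + 1) - rt m := by linarith
      nlinarith [mul_le_mul_of_nonneg_left h4 h5]
    linarith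

/-- Splitting a double sum of a function bounded in terms of the distance. -/
lemma sum_dist_le (n j : ℕ) (hj : j < n) (g : ℕ → ℝ) {d e : ℝ} (he : 0 ≤ e) (hd : g j ≤ d)
    (hg : ∀ r, g (j + (r + 1)) ≤ e / rt (r + 1) ^ 3)
    (hg' : ∀ r, r < j → g (j - (r + 1)) ≤ e / rt (r + 1) ^ 3) :
    ∑ k ∈ Finset.range n, g k ≤ d + 8 * e * rt n := by
  have h1 : ∑ k ∈ Finset.range j, g k ≤ 4 * e * rt n := by
    rw [← Finset.sum_range_reflect]
    calc ∑ r ∈ Finset.range j, g (j - 1 - r) ≤ ∑ r ∈ Finset.range j, e * (1 / rt (r + 1) ^ 3) := by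
          refine Finset.sum_le_sum fun r hr ↦ ?_
          have := hg' r (Finset.mem_range.1 hr)
          rw [show j - 1 - r = j - (r + 1) by omega, mul_one_div]
          exact this
      _ = e * ∑ r ∈ Finset.range j, 1 / rt (r + 1) ^ 3 := by rw [Finset.mul_sum]
      _ ≤ e * (4 * rt j) := by gcongr; exact sum_rt j
      _ ≤ e * (4 * rt n) := by gcongr; exact rt_mono hj.le
      _ = 4 * e * rt n := by ring
  have h2 : ∑ k ∈ Finset.Ico (j + 1) n, g k ≤ 4 * e * rt n := by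
    rw [Finset.sum_Ico_eq_sum_range]
    calc ∑ r ∈ Finset.range (n - (j + 1)), g (j + 1 + r) ≤
        ∑ r ∈ Finset.range (n - (j + 1)), e * (1 / rt (r + 1) ^ 3) := by
          refine Finset.sum_le_sum fun r _ ↦ ?_
          have := hg r
          rw [show j + 1 + r = j + (r + 1) by omega, mul_one_div]
          exact this
      _ = e * ∑ r ∈ Finset.range (n - (j + 1)), 1 / rt (r + 1) ^ 3 := by rw [Finset.mul_sum]
      _ ≤ e * (4 * rt (n - (j + 1))) := by gcongr; exact sum_rt _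
      _ ≤ e * (4 * rt n) := by gcongr; exact rt_mono (by omega)
      _ = 4 * e * rt n := by ring
  have h3 : ∑ k ∈ Finset.range n, g k = ∑ k ∈ Finset.range j, g k + g j +
      ∑ k ∈ Finset.Ico (j + 1) n, g k := by
    rw [← Finset.sum_range_succ, Finset.sum_range_add_sum_Ico _ (by omega)]
  rw [h3]
  linarith

end Pool.Agent.Lib.MP_8cdf0c_pr
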