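import Mathlib
import Pool.Agent.Lib.MP_8cdf0c_pr.Count

open MeasureTheory ProbabilityTheory Filter
open scoped NNReal ENNReal Topology

namespace Pool.Agent.Lib.MP_8cdf0c_pr

variable {Ω : Type*} {mΩ : MeasurableSpace Ω} {P : Measure Ω} {W : ℝ → Ω → ℝ}

/-- The grid of lengths. -/
noncomputable def gr (n k : ℕ) : ℝ := 3 / 4 + k / (16 * n)

/-- The level window. -/
noncomputable def ep (n : ℕ) : ℝ := 1 / (160 * rt n ^ 3)

/-- The events counted. -/
def AA (M : ℝ → Ω → ℝ) (n k : ℕ) : Set Ω :=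
  {ω | |M (gr n k) ω| ≤ ep n ∧ SignChange (M (gr n k) ω) (M (gr n (k + 1)) ω)}

lemma measurableSet_AA {M : ℝ → Ω → ℝ} (hM : ∀ l, Measurable (M l)) (n k : ℕ) :
    MeasurableSet (AA M n k) := by
  have a1 : MeasurableSet {ω | |M (gr n k) ω| ≤ ep n} :=
    measurableSet_le (hM _).abs measurable_const
  have a2 : MeasurableSet {ω | M (gr n k) ω ≤ 0} := measurableSet_le (hM _) measurable_const
  have a3 : MeasurableSet {ω | 0 < M (gr n (k + 1)) ω} := measurableSet_lt measurable_const (hM _)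
  have a4 : MeasurableSet {ω | M (gr n (k + 1)) ω ≤ 0} := measurableSet_le (hM _) measurable_const
  have a5 : MeasurableSet {ω | 0 < M (gr n k) ω} := measurableSet_lt measurable_const (hM _)
  exact a1.inter ((a2.inter a3).union (a4.inter a5))

lemma gr_mem {n k : ℕ} (hn : 0 < n) (hk : k ≤ n) : gr n k ∈ Set.Icc (3 / 4 : ℝ) (13 / 16) := by
  unfold gr
  have hn' : (0 : ℝ) < n := by exact_mod_cast hn
  have hk' : (k : ℝ) ≤ n := by exact_mod_cast hk
  constructor
  · have : (0 : ℝ) ≤ k / (16 * n) := by positivity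
    linarith
  · have : (k : ℝ) / (16 * n) ≤ 1 / 16 := by
      rw [div_le_div_iff₀ (by positivity) (by norm_num)]
      linarith
    linarith

lemma gr_mono (n : ℕ) : Monotone (gr n) := by
  intro j k hjk
  unfold gr
  have : (j : ℝ) ≤ k := by exact_mod_cast hjk
  gcongr

lemma gr_add {n j r : ℕ} (hn : 0 < n) :
    gr n (j + r) = gr n j + (rt r / (2 * rt n)) ^ 4 := by
  unfold gr
  have hn' : (0 : ℝ) < n := by exact_mod_cast hn
  rw [div_pow, mul_pow, rt_pow, rt_pow]
  push_cast
  field_simp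
  ring

/-- Anti-concentration on the grid. -/
lemma IsBM.anti_grid (hW : IsBM W P) {n j r : ℕ} (hr : 0 < r) (hjr : j + r ≤ n) {ε : ℝ}
    (hε : 0 ≤ ε) :
    P {ω | |mm W (gr n (j + r)) ω - mm W (gr n j) ω| ≤ ε} ≤
      ENNReal.ofReal (40 * ε * rt n ^ 3 / rt r ^ 3) := by
  have hn : 0 < n := by omega
  have hrn := rt_pos hn
  have hrr := rt_pos hr
  have h1 := gr_mem hn (show j ≤ n by omega)
  have h2 := gr_mem hn hjr
  have h3 := gr_add (j := j) (r := r) hn
  have := hW.anti (l := gr n j) (s := rt r / (2 * rt n)) (ε := ε) h1.1 (by positivity)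
    (by linarith [h1.1, h2.2]) (by rw [← h3]; linarith [h2.2]) hε
  rw [← h3] at this
  refine this.trans (ENNReal.ofReal_le_ofReal (le_of_eq ?_))
  field_simp
  ring

lemma ep_pos {n : ℕ} (hn : 0 < n) : 0 < ep n := by
  unfold ep
  have := rt_pos hn
  positivity

theorem IsBM.count (hW : IsBM W P) : ∃ (M : ℝ → Ω → ℝ) (κ c0 : ℝ), 0 < κ ∧ 0 < c0 ∧
    (∀ l, Measurable (M l)) ∧ (∀ l, mm W l =ᵐ[P] M l) ∧ ∀ n : ℕ, 160 ≤ rt n →
    c0 ≤ P.real {ω | κ * rt n ≤
      ∑ k ∈ Finset.range n, (AA M n k).indicator (fun _ ↦ (1 : ℝ)) ω} := by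
  have := hW.isProb
  obtain ⟨R, hR0, hR⟩ := hW.tight
  have hmeas : ∀ l, AEMeasurable (mm W l) P := fun l ↦ hW.aemeasurable_mi l 0 (1 - l)
  let M : ℝ → Ω → ℝ := fun l ↦ (hmeas l).mk
  have hMm : ∀ l, Measurable (M l) := fun l ↦ (hmeas l).measurable_mk
  have hMe : ∀ l, mm W l =ᵐ[P] M l := fun l ↦ (hmeas l).ae_eq_mk
  set κ0 : ℝ := (√Real.pi)⁻¹ * Real.exp (-(R + 1) ^ 2) with hκ0
  have hκ0' : 0 < κ0 := by
    have := Real.pi_pos
    positivity
  refine ⟨M, κ0 / 1280, (κ0 / 2) ^ 2 / (2 * 1600), by positivity, by positivity, hMm, hMe, ?_⟩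
  intro n hn160
  have hn : 0 < n := by
    by_contra h
    have : n = 0 := by omega
    subst this
    have : rt 0 = 0 := by unfold rt; norm_num
    linarith
  set u := rt n with hu
  have hu0 : 0 < u := rt_pos hn
  have hu4 : u ^ 4 = n := rt_pow n
  set ε := ep n with hε
  have hε0 : 0 < ε := ep_pos hn
  have hεu : ε * u ^ 3 = 1 / 160 := by
    rw [hε, ep, ← hu]; field_simp
  have hε1 : ε ≤ 1 := by
    have : (1 : ℝ) ≤ u ^ 3 := one_le_pow₀ (by linarith)
    nlinarith
  -- the probability in terms of `mm`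
  have hAA : ∀ k, P (AA M n k) = P {ω | |mm W (gr n k) ω| ≤ ε ∧
      SignChange (mm W (gr n k) ω) (mm W (gr n (k + 1)) ω)} := by
    intro k
    apply measure_congr
    filter_upwards [hMe (gr n k), hMe (gr n (k + 1))] with ω h1 h2
    apply propext
    change (|M (gr n k) ω| ≤ ep n ∧ SignChange (M (gr n k) ω) (M (gr n (k + 1)) ω)) ↔
      (|mm W (gr n k) ω| ≤ ε ∧ SignChange (mm W (gr n k) ω) (mm W (gr n (k + 1)) ω))
    rw [h1, h2]
  -- first moment
  have hfirst : ∀ k < n, ε * κ0 / 2 ≤ P.real (AA M n k) := by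
    intro k hk
    have g1 := gr_mem hn hk.le
    have g2 := gr_mem hn (Nat.succ_le_of_lt hk)
    have hp : (1 / 2 : ℝ≥0∞) ≤ P {ω | |mm W (gr n k) ω - GG W ω| ≤ R ∧
        ε ≤ |mm W (gr n (k + 1)) ω - mm W (gr n k) ω|} := by
      have t1 := hR (gr n k) g1.1 (by linarith [g1.2])
      have t2 := hW.anti_grid (n := n) (j := k) (r := 1) one_pos hk hε0.le
      have hrt1 : rt 1 = 1 := by unfold rt; norm_num
      rw [hrt1, ← hu, one_pow, div_one, show 40 * ε * u ^ 3 = 1 / 4 by linarith] at t2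
      have t3 : P {ω | |mm W (gr n k) ω - GG W ω| ≤ R} ≤
          P {ω | |mm W (gr n k) ω - GG W ω| ≤ R ∧
            ε ≤ |mm W (gr n (k + 1)) ω - mm W (gr n k) ω|} +
          P {ω | |mm W (gr n (k + 1)) ω - mm W (gr n k) ω| ≤ ε} := by
        refine le_trans (measure_mono ?_) (measure_union_le _ _)
        intro ω hω
        rcases le_total ε |mm W (gr n (k + 1)) ω - mm W (gr n k) ω| with h | h
        · exact Or.inl ⟨hω, h⟩
        · exact Or.inr h
      have t4 := t1.trans (t3.trans (add_le_add_right t2 _))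
      have e1 : ENNReal.ofReal (1 / 4) = 1 / 4 := by
        rw [ENNReal.ofReal_div_of_pos (by norm_num)]; norm_num
      rw [e1] at t4
      have e2 : (3 / 4 : ℝ≥0∞) = 1 / 2 + 1 / 4 := by
        rw [← ENNReal.toReal_eq_toReal_iff' (by
          exact ENNReal.div_ne_top (by norm_num) (by norm_num)) (by
          exact ENNReal.add_ne_top.2 ⟨ENNReal.div_ne_top (by norm_num) (by norm_num),
            ENNReal.div_ne_top (by norm_num) (by norm_num)⟩),
          ENNReal.toReal_add (ENNReal.div_ne_top (by norm_num) (by norm_num))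
            (ENNReal.div_ne_top (by norm_num) (by norm_num))]
        simp only [ENNReal.toReal_div]
        norm_num
      rw [e2] at t4
      exact (ENNReal.add_le_add_iff_right (by
        simp)).1 t4
    have t := hW.lower g1.1 (by linarith [g1.2]) g2.1 (by linarith [g2.2]) hε1 hp
    rw [← hκ0, ← hAA] at t
    have t' := ENNReal.toReal_mono (measure_ne_top P _) t
    rw [ENNReal.toReal_mul, ENNReal.toReal_ofReal (by positivity)] at t'
    have e3 : ((1 / 2 : ℝ≥0∞)).toReal = 1 / 2 := by simp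
    rw [e3] at t'
    rw [measureReal_def]
    linarith
  -- second moment
  have hdiag : ∀ k ≤ n, P.real (AA M n k) ≤ 2 * ε := by
    intro k hk
    have g1 := gr_mem hn hk
    have t := hW.upper g1.1 (by linarith [g1.2]) g1.1 (by linarith [g1.2]) hε0.le
    have t2 : P (AA M n k) ≤ ENNReal.ofReal (2 * ε) := by
      rw [hAA]
      calc P {ω | |mm W (gr n k) ω| ≤ ε ∧
          SignChange (mm W (gr n k) ω) (mm W (gr n (k + 1)) ω)} ≤
          P {ω | |mm W (gr n k) ω| ≤ ε ∧ |mm W (gr n k) ω| ≤ ε} :=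
            measure_mono fun ω hω ↦ ⟨hω.1, hω.1⟩
        _ ≤ _ := t
        _ ≤ 1 * ENNReal.ofReal (2 * ε) := mul_le_mul_left prob_le_one _
        _ = _ := one_mul _
    rw [measureReal_def]
    exact ENNReal.toReal_le_of_le_ofReal (by positivity) t2
  have hpair : ∀ j r, j + (r + 1) ≤ n → P.real (AA M n j ∩ AA M n (j + (r + 1))) ≤
      ε / rt (r + 1) ^ 3 := by
    intro j r hjr
    have g1 := gr_mem hn (show j ≤ n by omega)
    have g2 := gr_mem hn hjr
    have hr0 := rt_pos (Nat.succ_pos r)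
    have t := hW.upper g1.1 (by linarith [g1.2]) g2.1 (by linarith [g2.2]) hε0.le
    have t3 := hW.anti_grid (n := n) (j := j) (r := r + 1) (Nat.succ_pos r) hjr
      (show 0 ≤ 2 * ε by positivity)
    have t2 : P (AA M n j ∩ AA M n (j + (r + 1))) ≤ ENNReal.ofReal (ε / rt (r + 1) ^ 3) := by
      calc P (AA M n j ∩ AA M n (j + (r + 1))) ≤
          P {ω | |mm W (gr n j) ω| ≤ ε ∧ |mm W (gr n (j + (r + 1))) ω| ≤ ε} := by
            apply measure_mono_ae
            filter_upwards [hMe (gr n j), hMe (gr n (j + (r + 1)))] with ω h1 h2 hω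
            have a1 : |M (gr n j) ω| ≤ ε := hω.1.1
            have a2 : |M (gr n (j + (r + 1))) ω| ≤ ε := hω.2.1
            change |mm W (gr n j) ω| ≤ ε ∧ |mm W (gr n (j + (r + 1))) ω| ≤ ε
            rw [h1, h2]
            exact ⟨a1, a2⟩
        _ ≤ _ := t
        _ ≤ ENNReal.ofReal (40 * (2 * ε) * rt n ^ 3 / rt (r + 1) ^ 3) * ENNReal.ofReal (2 * ε) :=
            mul_le_mul_left t3 _
        _ = ENNReal.ofReal (ε / rt (r + 1) ^ 3) := by
            rw [← ENNReal.ofReal_mul (by positivity)]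
            congr 1
            rw [← hu]
            rw [show 40 * (2 * ε) * u ^ 3 / rt (r + 1) ^ 3 * (2 * ε) =
              160 * (ε * u ^ 3) * ε / rt (r + 1) ^ 3 by ring, hεu]
            ring
    rw [measureReal_def]
    exact ENNReal.toReal_le_of_le_ofReal (by positivity) t2
  -- sums
  have hS1 : κ0 / 2 * (n * ε) ≤ ∑ k ∈ Finset.range n, P.real (AA M n k) := by
    calc κ0 / 2 * (n * ε) = ∑ _k ∈ Finset.range n, ε * κ0 / 2 := by
          rw [Finset.sum_const, Finset.card_range, nsmul_eq_mul]; ring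
      _ ≤ _ := Finset.sum_le_sum fun k hk ↦ hfirst k (Finset.mem_range.1 hk)
  have hxu : (n : ℝ) * ε = u / 160 := by
    rw [← hu4]
    have : u ^ 4 * ε = u * (ε * u ^ 3) := by ring
    rw [this, hεu]; ring
  have hS2 : ∑ j ∈ Finset.range n, ∑ k ∈ Finset.range n, P.real (AA M n j ∩ AA M n k) ≤
      1600 * (n * ε) ^ 2 := by
    have hin : ∀ j ∈ Finset.range n, ∑ k ∈ Finset.range n, P.real (AA M n j ∩ AA M n k) ≤
        2 * ε + 8 * ε * u := by
      intro j hj
      have hj' := Finset.mem_range.1 hj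
      have e := sum_dist_le n j hj' (fun k ↦ if k < n then P.real (AA M n j ∩ AA M n k) else 0)
        hε0.le (d := 2 * ε) ?_ ?_ ?_
      · rw [← hu] at e
        refine le_trans (le_of_eq ?_) e
        refine Finset.sum_congr rfl fun k hk ↦ ?_
        rw [if_pos (Finset.mem_range.1 hk)]
      · rw [if_pos hj', Set.inter_self]
        exact hdiag j hj'.le
      · intro r
        split_ifs with h
        · exact hpair j r h.le
        · have := rt_nonneg (r + 1)
          positivity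
      · intro r hr
        rw [if_pos (by omega)]
        have := hpair (j - (r + 1)) r (by omega)
        rw [show j - (r + 1) + (r + 1) = j by omega, Set.inter_comm] at this
        exact this
    calc ∑ j ∈ Finset.range n, ∑ k ∈ Finset.range n, P.real (AA M n j ∩ AA M n k)
        ≤ ∑ _j ∈ Finset.range n, (2 * ε + 8 * ε * u) := Finset.sum_le_sum hin
      _ = (n * ε) * (2 + 8 * u) := by
          rw [Finset.sum_const, Finset.card_range, nsmul_eq_mul]; ring
      _ ≤ (n * ε) * (10 * u) := by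
          gcongr; linarith
      _ = 1600 * (n * ε) ^ 2 := by rw [hxu]; ring
  have hx0 : 0 < (n : ℝ) * ε := by rw [hxu]; positivity
  have key := pz (P := P) n (AA M n) (measurableSet_AA hMm n) hx0 (half_pos hκ0')
    (show (0 : ℝ) < 1600 by norm_num) hS1 hS2
  refine key.trans ?_
  apply measureReal_mono _ (measure_ne_top _ _)
  intro ω hω
  have h1 : κ0 / 2 * (↑n * ε) / 4 ≤
    ∑ k ∈ Finset.range n, (AA M n k).indicator (fun _ ↦ (1 : ℝ)) ω := hω
  refine le_trans (le_of_eq ?_) h1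
  rw [hxu]; ring

end Pool.Agent.Lib.MP_8cdf0c_pr
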